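import Pool.Agent.RTV.Defs

/-!
# RTV/Lim: passing to the limit
-/

set_option autoImplicit false

namespace Pool.Agent.RTV

theorem lim_bound {e D : ℝ} {m1 : ℕ} (h : ∀ M1 : ℕ, m1 ≤ M1 → 1 ≤ M1 → ∀ K : ℕ, M1 < K → ∃ C : ℝ, ∀ M : ℕ, 2 * K ≤ M →
      -(3 * M / M1) * (Real.log K - Real.log M1) - 48 * M ≤
        (Real.log K - Real.log M1) * (e * D * M - Real.sqrt 5 * M + C)) : Real.sqrt 5 ≤ e * D := by
  by_contra hlt
  push Not at hlt
  set δ : ℝ := Real.sqrt 5 - e * D with hδ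
  have hδ0 : 0 < δ := by rw [hδ]; linarith
  obtain ⟨n1, hn1⟩ := exists_nat_gt (6 / δ)
  have hM0 : (0 : ℝ) < (max (max m1 1) n1 : ℕ) := by
    have h1 : 1 ≤ max (max m1 1) n1 := (le_max_right m1 1).trans (le_max_left _ _)
    exact_mod_cast h1
  have hM6 : 6 / δ < (max (max m1 1) n1 : ℕ) := by
    have h1 : ((n1 : ℕ) : ℝ) ≤ (max (max m1 1) n1 : ℕ) := by exact_mod_cast le_max_right _ _
    linarith
  have hA := h (max (max m1 1) n1) ((le_max_left m1 1).trans (le_max_left _ _))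
    ((le_max_right m1 1).trans (le_max_left _ _))
  generalize max (max m1 1) n1 = M1 at hM0 hM6 hA
  have h3 : 3 / (M1 : ℝ) ≤ δ / 2 := by
    rw [div_lt_iff₀ hδ0] at hM6
    rw [div_le_iff₀ hM0]
    nlinarith
  have hev : ∀ᶠ K : ℕ in Filter.atTop, Real.log M1 + 98 / δ ≤ Real.log (K : ℝ) :=
    (Real.tendsto_log_atTop.comp tendsto_natCast_atTop_atTop).eventually_ge_atTop _
  obtain ⟨K, hK1, hK2⟩ := (hev.and (Filter.eventually_gt_atTop M1)).exists
  obtain ⟨C, hC⟩ := hA K hK2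
  set L : ℝ := Real.log K - Real.log M1 with hL
  have hL1 : 98 / δ ≤ L := by rw [hL]; linarith
  have hL2 : 98 ≤ L * δ := by rwa [div_le_iff₀ hδ0] at hL1
  have hL0 : 0 < L := lt_of_lt_of_le (div_pos (by norm_num) hδ0) hL1
  obtain ⟨n2, hn2⟩ := exists_nat_gt (L * C)
  have h4 := hC (max (2 * K) n2) (le_max_left _ _)
  have h5 : L * C < (max (2 * K) n2 : ℕ) := by
    have h1 : ((n2 : ℕ) : ℝ) ≤ (max (2 * K) n2 : ℕ) := by exact_mod_cast le_max_right _ _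
    linarith
  have h6 : (0 : ℝ) ≤ (max (2 * K) n2 : ℕ) := Nat.cast_nonneg _
  generalize ((max (2 * K) n2 : ℕ) : ℝ) = M at h4 h5 h6
  have h7 : 3 * M / M1 * L ≤ M * (δ / 2 * L) := by
    have h8 : 3 * M / M1 * L = M * (3 / M1 * L) := by ring
    rw [h8]
    exact mul_le_mul_of_nonneg_left (mul_le_mul_of_nonneg_right h3 hL0.le) h6
  have h9 : L * (e * D * M - Real.sqrt 5 * M + C) = - (M * (δ * L)) + L * C := by
    rw [hδ]
    ring
  rw [h9] at h4
  have h10 : 0 ≤ M * (L * δ - 98) := mul_nonneg h6 (by linarith)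
  nlinarith

end Pool.Agent.RTV
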