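import Pool.Agent.RTV.IneqA

/-!
# RTV/IneqB: the inequality

`G u v = (u + v - 1 + q) log (u + v - 1) - (u + cy) log u - (v + cy) log v ≥ 0` for `u, v ≥ 1`, `q = 2 cy - cx`: monotonicity in each variable beyond `cy` reduces to `u, v ∈ [1, cy]`, where
`t ↦ (t + cy) log t` is concave, so that the case of the diagonal (`ineq_diag`) suffices.
-/

set_option autoImplicit false

namespace Pool.Agent.RTV

private theorem ineqB_mono {u v : ℝ} (hu : 1 ≤ u) (hv : cy ≤ v) :
    (u + cy - 1 + (2 * cy - cx)) * Real.log (u + cy - 1) - (cy + cy) * Real.log cy ≤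
      (u + v - 1 + (2 * cy - cx)) * Real.log (u + v - 1) - (v + cy) * Real.log v := by
  have hc := cy_bd
  have hx := cx_bd
  have hd : ∀ t : ℝ, cy ≤ t → HasDerivAt (fun t => (u + t - 1 + (2 * cy - cx)) * Real.log (u + t - 1) - (t + cy) * Real.log t)
      ((1 * Real.log (u + t - 1) + (u + t - 1 + (2 * cy - cx)) * (1 / (u + t - 1))) -
        (1 * Real.log t + (t + cy) * (1 / t))) t := by
    intro t ht
    have h1 : HasDerivAt (fun t : ℝ => u + t - 1) 1 t := ((hasDerivAt_id t).const_add u).sub_const 1
    have h2 : HasDerivAt (fun t : ℝ => u + t - 1 + (2 * cy - cx)) 1 t := h1.add_const (2 * cy - cx)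
    have h3 : HasDerivAt (fun t : ℝ => Real.log (u + t - 1)) (1 / (u + t - 1)) t := h1.log (by linarith)
    have h4 : HasDerivAt (fun t : ℝ => t + cy) 1 t := (hasDerivAt_id t).add_const cy
    have h5 : HasDerivAt (fun t : ℝ => Real.log t) (1 / t) t := (hasDerivAt_id t).log (by simp; linarith)
    exact (h2.mul h3).sub (h4.mul h5)
  have hm : MonotoneOn (fun t => (u + t - 1 + (2 * cy - cx)) * Real.log (u + t - 1) - (t + cy) * Real.log t) (Set.Ici cy) := by
    refine monotoneOn_of_deriv_nonneg (convex_Ici cy) ?_ ?_ ?_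
    · intro t ht
      exact (hd t ht).continuousAt.continuousWithinAt
    · intro t ht
      rw [interior_Ici] at ht
      exact (hd t (le_of_lt ht)).differentiableAt.differentiableWithinAt
    · intro t ht
      rw [interior_Ici] at ht
      have ht' : cy < t := ht
      rw [(hd t ht'.le).deriv]
      have t0 : 0 < t := by linarith
      have k0 : 0 < u + t - 1 := by linarith
      have hlog : 1 - t / (u + t - 1) ≤ Real.log ((u + t - 1) / t) := by
        have h := Real.one_sub_inv_le_log_of_pos (div_pos k0 t0)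
        rwa [inv_div] at h
      rw [Real.log_div k0.ne' t0.ne'] at hlog
      have e1 : (u + t - 1 + (2 * cy - cx)) * (1 / (u + t - 1)) = 1 + (2 * cy - cx) / (u + t - 1) := by
        field_simp
      have e2 : (t + cy) * (1 / t) = 1 + cy / t := by
        field_simp
      rw [e1, e2]
      have e3 : cy / t - (2 * cy - cx) / (u + t - 1) ≤ 1 - t / (u + t - 1) := by
        have e4 : cy / t - (2 * cy - cx) / (u + t - 1) ≤ cy / t - cy / (u + t - 1) := by
          have : cy / (u + t - 1) ≤ (2 * cy - cx) / (u + t - 1) := by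
            apply div_le_div_of_nonneg_right _ k0.le
            linarith
          linarith
        have e5 : cy / t - cy / (u + t - 1) ≤ 1 - t / (u + t - 1) := by
          have h6 : (1 - t / (u + t - 1)) - (cy / t - cy / (u + t - 1)) = (u - 1) * (t - cy) / (t * (u + t - 1)) := by
            field_simp
            ring
          have h7 : 0 ≤ (u - 1) * (t - cy) / (t * (u + t - 1)) :=
            div_nonneg (mul_nonneg (by linarith) (by linarith)) (mul_pos t0 k0).le
          linarith
        linarith
      linarith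
  exact hm (Set.mem_Ici.2 le_rfl) (Set.mem_Ici.2 hv) hv

private theorem ineqB_conc {u v : ℝ} (hu : 1 ≤ u) (hv : 1 ≤ v) (hu' : u ≤ cy) (hv' : v ≤ cy) :
    (u + cy) * Real.log u + (v + cy) * Real.log v ≤ 2 * (((u + v) / 2 + cy) * Real.log ((u + v) / 2)) := by
  have hc := cy_bd
  have hd : ∀ t : ℝ, 1 ≤ t → HasDerivAt (fun t => (t + cy) * Real.log t) (1 * Real.log t + (t + cy) * (1 / t)) t := by
    intro t ht
    have h4 : HasDerivAt (fun t : ℝ => t + cy) 1 t := (hasDerivAt_id t).add_const cy
    have h5 : HasDerivAt (fun t : ℝ => Real.log t) (1 / t) t := (hasDerivAt_id t).log (by simp; linarith)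
    exact h4.mul h5
  have hcc : ConcaveOn ℝ (Set.Icc 1 cy) (fun t => (t + cy) * Real.log t) := by
    refine AntitoneOn.concaveOn_of_deriv (convex_Icc 1 cy) ?_ ?_ ?_
    · intro t ht
      exact (hd t ht.1).continuousAt.continuousWithinAt
    · intro t ht
      rw [interior_Icc] at ht
      exact (hd t ht.1.le).differentiableAt.differentiableWithinAt
    · intro s hs t ht hst
      rw [interior_Icc] at hs ht
      rw [(hd s hs.1.le).deriv, (hd t ht.1.le).deriv]
      have s0 : 0 < s := by linarith [hs.1]
      have t0 : 0 < t := by linarith [ht.1]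
      have hlog : Real.log (t / s) ≤ t / s - 1 := Real.log_le_sub_one_of_pos (div_pos t0 s0)
      rw [Real.log_div t0.ne' s0.ne'] at hlog
      have e1 : (s + cy) * (1 / s) = 1 + cy / s := by
        field_simp
      have e2 : (t + cy) * (1 / t) = 1 + cy / t := by
        field_simp
      rw [e1, e2]
      have e5 : t / s - 1 ≤ cy / s - cy / t := by
        have h6 : (cy / s - cy / t) - (t / s - 1) = (t - s) * (cy - t) / (s * t) := by
          field_simp
        have h7 : 0 ≤ (t - s) * (cy - t) / (s * t) :=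
          div_nonneg (mul_nonneg (by linarith) (by linarith [ht.2])) (mul_pos s0 t0).le
        linarith
      linarith
  have h := hcc.2 (Set.mem_Icc.2 ⟨hu, hu'⟩) (Set.mem_Icc.2 ⟨hv, hv'⟩) (show (0 : ℝ) ≤ 1 / 2 by norm_num) (show (0 : ℝ) ≤ 1 / 2 by norm_num) (by norm_num)
  simp only [smul_eq_mul] at h
  have e : 1 / 2 * u + 1 / 2 * v = (u + v) / 2 := by ring
  rw [e] at h
  linarith

theorem ineq {u v : ℝ} (hu : 1 ≤ u) (hv : 1 ≤ v) :
    (u + cy) * Real.log u + (v + cy) * Real.log v ≤ (u + v - 1 + (2 * cy - cx)) * Real.log (u + v - 1) := by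
  have hc := cy_bd
  have small : ∀ {u v : ℝ}, 1 ≤ u → 1 ≤ v → u ≤ cy → v ≤ cy →
      (u + cy) * Real.log u + (v + cy) * Real.log v ≤ (u + v - 1 + (2 * cy - cx)) * Real.log (u + v - 1) := by
    intro u v hu hv hu' hv'
    have h1 := ineqB_conc hu hv hu' hv'
    have h2 := ineq_diag (w := (u + v) / 2) (by linarith)
    have e : 2 * ((u + v) / 2) - 1 = u + v - 1 := by ring
    rw [e] at h2
    exact h1.trans h2
  have mid : ∀ {u v : ℝ}, 1 ≤ u → 1 ≤ v → u ≤ cy →
      (u + cy) * Real.log u + (v + cy) * Real.log v ≤ (u + v - 1 + (2 * cy - cx)) * Real.log (u + v - 1) := by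
    intro u v hu hv hu'
    by_cases hv' : v ≤ cy
    · exact small hu hv hu' hv'
    · have h1 := small hu (v := cy) (by linarith) hu' le_rfl
      have h2 := ineqB_mono hu (v := v) (le_of_not_ge hv')
      linarith
  by_cases hu' : u ≤ cy
  · exact mid hu hv hu'
  · have h1 := mid (u := cy) (v := v) (by linarith) hv le_rfl
    have h2 := ineqB_mono hv (v := u) (le_of_not_ge hu')
    have e1 : v + cy - 1 = cy + v - 1 := by ring
    have e2 : v + u - 1 = u + v - 1 := by ring
    rw [e1, e2] at h2
    linarith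

end Pool.Agent.RTV
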