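import Pool.Agent.RTV.Defs

/-!
# RTV/Stir: comparison of factorials

Let `g m = log m! - m log m + m` for `m ≥ 1`.  PLAN: `g (k) - g (k - 1) = 1 - (k - 1) * log (k / (k - 1))` for `k ≥ 2`; it is `≥ 0` because `log (1 + 1 / (k - 1)) ≤ 1 / (k - 1)`, and `≤ log (k / (k - 1))` because
`k * log (k / (k - 1)) ≥ 1` (`Real.one_sub_inv_le_log_of_pos`: `log z ≥ 1 - 1 / z` for `z = k / (k - 1)`).  So `g` is monotone and `g b - g a ≤ log (b / a)` for `1 ≤ a ≤ b`.  Then
`g (n + r) ≤ g (n + r + s)` and `g (n + s) - g n ≤ log ((n + s) / n) ≤ log ((n + r + s) / n)`; the linear terms cancel.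
-/

set_option autoImplicit false

namespace Pool.Agent.RTV

private noncomputable def stir_G (m : ℕ) : ℝ := Real.log m.factorial - m * Real.log m + m

private lemma stir_step {k : ℕ} (hk : 1 ≤ k) :
    0 ≤ stir_G (k + 1) - stir_G k ∧
      stir_G (k + 1) - stir_G k ≤ Real.log ((k + 1 : ℕ) : ℝ) - Real.log (k : ℝ) := by
  have hk0 : (0 : ℝ) < k := by exact_mod_cast hk
  have hk1 : (0 : ℝ) < (k : ℝ) + 1 := by linarith
  have hf : Real.log ((k + 1).factorial : ℝ) = Real.log ((k : ℝ) + 1) + Real.log (k.factorial : ℝ) := by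
    rw [Nat.factorial_succ]
    push_cast
    rw [Real.log_mul hk1.ne' (by exact_mod_cast (Nat.factorial_pos k).ne')]
  have hd : Real.log (((k : ℝ) + 1) / k) = Real.log ((k : ℝ) + 1) - Real.log k :=
    Real.log_div hk1.ne' hk0.ne'
  have h1 : Real.log (((k : ℝ) + 1) / k) ≤ ((k : ℝ) + 1) / k - 1 :=
    Real.log_le_sub_one_of_pos (div_pos hk1 hk0)
  have h2 : 1 - (((k : ℝ) + 1) / k)⁻¹ ≤ Real.log (((k : ℝ) + 1) / k) :=
    Real.one_sub_inv_le_log_of_pos (div_pos hk1 hk0)
  rw [hd] at h1 h2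
  have e1 : ((k : ℝ) + 1) / k - 1 = 1 / k := by field_simp; ring
  have e2 : 1 - (((k : ℝ) + 1) / k)⁻¹ = 1 / ((k : ℝ) + 1) := by field_simp; ring
  rw [e1] at h1
  rw [e2] at h2
  have h1' : (k : ℝ) * (Real.log ((k : ℝ) + 1) - Real.log k) ≤ 1 := by
    have := mul_le_mul_of_nonneg_left h1 hk0.le
    rwa [mul_one_div_cancel hk0.ne'] at this
  have h2' : 1 ≤ ((k : ℝ) + 1) * (Real.log ((k : ℝ) + 1) - Real.log k) := by
    have := mul_le_mul_of_nonneg_left h2 hk1.le
    rwa [mul_one_div_cancel hk1.ne'] at this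
  unfold stir_G
  rw [hf]
  push_cast
  constructor
  · nlinarith
  · nlinarith

private lemma stir_mono {a : ℕ} (ha : 1 ≤ a) (b : ℕ) :
    0 ≤ stir_G (a + b) - stir_G a ∧
      stir_G (a + b) - stir_G a ≤ Real.log ((a + b : ℕ) : ℝ) - Real.log (a : ℝ) := by
  induction b with
  | zero => simp
  | succ b ih =>
    have h := stir_step (k := a + b) (by omega)
    rw [← add_assoc]
    constructor
    · linarith [h.1, ih.1]
    · linarith [h.2, ih.2]

theorem stir {n r s : ℕ} (hn : 1 ≤ n) :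
    ((n + r + s : ℕ) : ℝ) * Real.log (n + r + s : ℕ) + n * Real.log n - ((n + r : ℕ) : ℝ) * Real.log (n + r : ℕ) -
        ((n + s : ℕ) : ℝ) * Real.log (n + s : ℕ) - (Real.log (n + r + s : ℕ) - Real.log n) ≤
      Real.log (n + r + s).factorial + Real.log n.factorial - Real.log (n + r).factorial -
        Real.log (n + s).factorial := by
  have h1 := (stir_mono (a := n + r) (by omega) s).1
  have h2 := (stir_mono hn s).2
  have h3 : Real.log ((n + s : ℕ) : ℝ) ≤ Real.log ((n + r + s : ℕ) : ℝ) :=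
    Real.log_le_log (by exact_mod_cast (by omega : 0 < n + s)) (by exact_mod_cast (by omega : n + s ≤ n + r + s))
  unfold stir_G at h1 h2
  have c1 : ((n + r + s : ℕ) : ℝ) = n + r + s := by push_cast; ring
  have c2 : ((n + r : ℕ) : ℝ) = n + r := by push_cast; ring
  have c3 : ((n + s : ℕ) : ℝ) = n + s := by push_cast; ring
  have e : (((n + r + s : ℕ) : ℝ)) + n - ((n + r : ℕ) : ℝ) - ((n + s : ℕ) : ℝ) = 0 := by
    rw [c1, c2, c3]; ring
  linarith

end Pool.Agent.RTV
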