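import Pool.Agent.RTV.SumL
import Pool.Agent.RTV.Stir
import Pool.Agent.RTV.IneqB

/-!
# RTV/Full: the inequality for a complete box

PLAN: unfold `phi`, `Finset.sum_add_distrib` etc.; `sum_vv`, `sum_ind` (three times, with `m = n`, `n + r`, `n + s`, `h = n + r + s`); `stir`; divide by `n`; with `u = (n + r) / n`, `v = (n + s) / n`, `u + v - 1 = h / n`:
`(1 / n) (h log h + n log n - (n + r) log (n + r) - (n + s) log (n + s)) = w log w - u log u - v log v`, `w = h / n`, because `w + 1 = u + v`; then `ineq`.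
-/

set_option autoImplicit false

namespace Pool.Agent.RTV

theorem full {n r s : ℕ} (hn : 1 ≤ n) : -(1 / (n : ℝ)) * (Real.log (n + r + s : ℕ) - Real.log n) ≤
    ∑ N ∈ Finset.Ico n (n + r + s), cc N * phi (1 / (n : ℝ)) n r s N := by
  have hsum : ∑ N ∈ Finset.Ico n (n + r + s), cc N * phi (1 / (n : ℝ)) n r s N =
      (1 / (n : ℝ)) * ∑ N ∈ Finset.Ico n (n + r + s), cc N * vv n r s N
      - cx * ∑ N ∈ Finset.Ico n (n + r + s), cc N * ind (n ≤ N ∧ N < n + r + s)
      + cy * ∑ N ∈ Finset.Ico n (n + r + s), cc N * ind (n + r ≤ N ∧ N < n + r + s)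
      + cy * ∑ N ∈ Finset.Ico n (n + r + s), cc N * ind (n + s ≤ N ∧ N < n + r + s) := by
    rw [Finset.mul_sum, Finset.mul_sum, Finset.mul_sum, Finset.mul_sum, ← Finset.sum_sub_distrib,
      ← Finset.sum_add_distrib, ← Finset.sum_add_distrib]
    refine Finset.sum_congr rfl fun N _ => ?_
    unfold phi
    ring
  rw [hsum, sum_vv hn, sum_ind hn le_rfl (by omega), sum_ind hn (by omega) (by omega),
    sum_ind hn (by omega) (by omega)]
  have hst := stir (r := r) (s := s) hn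
  have hn0 : (0 : ℝ) < n := by exact_mod_cast hn
  have hn1 : (1 : ℝ) ≤ n := by exact_mod_cast hn
  have hr0 : (0 : ℝ) ≤ r := Nat.cast_nonneg r
  have hs0 : (0 : ℝ) ≤ s := Nat.cast_nonneg s
  have hin := ineq (u := ((n + r : ℕ) : ℝ) / n) (v := ((n + s : ℕ) : ℝ) / n)
    (by rw [le_div_iff₀ hn0]; push_cast; linarith) (by rw [le_div_iff₀ hn0]; push_cast; linarith)
  have hw : ((n + r : ℕ) : ℝ) / n + ((n + s : ℕ) : ℝ) / n - 1 = ((n + r + s : ℕ) : ℝ) / n := by
    field_simp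
    push_cast
    ring
  rw [hw, Real.log_div (by positivity) hn0.ne', Real.log_div (by positivity) hn0.ne',
    Real.log_div (by positivity) hn0.ne'] at hin
  set Lh := Real.log ((n + r + s : ℕ) : ℝ) with hLh
  set Lr := Real.log ((n + r : ℕ) : ℝ) with hLr
  set Ls := Real.log ((n + s : ℕ) : ℝ) with hLs
  set Ln := Real.log (n : ℝ) with hLn
  set F := Real.log ((n + r + s).factorial : ℝ) + Real.log (n.factorial : ℝ) -
    Real.log ((n + r).factorial : ℝ) - Real.log ((n + s).factorial : ℝ) with hF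
  have hk : (0 : ℝ) ≤ 1 / (n : ℝ) := by positivity
  have h1 := mul_le_mul_of_nonneg_left hst hk
  have e : (1 / (n : ℝ)) * (((n + r + s : ℕ) : ℝ) * Lh + n * Ln - ((n + r : ℕ) : ℝ) * Lr -
        ((n + s : ℕ) : ℝ) * Ls - (Lh - Ln)) =
      ((n + r + s : ℕ) : ℝ) / n * Lh + Ln - ((n + r : ℕ) : ℝ) / n * Lr -
        ((n + s : ℕ) : ℝ) / n * Ls - (1 / (n : ℝ)) * (Lh - Ln) := by
    field_simp
  rw [e] at h1
  have e2 : ((n + r : ℕ) : ℝ) / n + ((n + s : ℕ) : ℝ) / n - 1 = ((n + r + s : ℕ) : ℝ) / n := hw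
  have e3 : ((n + r + s : ℕ) : ℝ) / n * Ln = ((n + r : ℕ) : ℝ) / n * Ln +
      ((n + s : ℕ) : ℝ) / n * Ln - Ln := by
    rw [← e2]; ring
  nlinarith [h1, hin, e3]

end Pool.Agent.RTV
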