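import Pool.Agent.RTV.Defs

/-!
# RTV/Num: the constants

PLAN: `lam = log φ`, `φ = (1 + √5) / 2`, `φ ^ 3 = 2 + √5`, `φ ^ 2 = (3 + √5) / 2`.  `lam_bd`: numerically `lam = .481211825…`.  For instance from bounds of `log 2` (`Real.log_two_gt_d9`,
`Real.log_two_lt_d9`) and `3 * lam = log (2 + √5) = 2 * log 2 + log ((2 + √5) / 4)`, `(2 + √5) / 4 = 1.0590169…`, with `log (1 + z) ≤ z - z ^ 2 / 2 + z ^ 3 / 3` and `≥ z - z ^ 2 / 2` for `z = .0590…` (or
`Real.add_one_le_exp`, `Real.exp_bound'`, `Real.log_le_sub_one_of_pos` applied to small factors such as `(1 + z)` written as a power).  `cy`, `cx` are affine in `lam` with explicit coefficients in `√5` (`2.23606 < √5 < 2.23607`).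
`id1`: definition of `cx`.  `id2`: `field_simp` with `√5 ^ 2 = 5`.
-/

set_option autoImplicit false

namespace Pool.Agent.RTV

private theorem num_s : 2.23606 < Real.sqrt 5 ∧ Real.sqrt 5 < 2.23607 := by
  constructor
  · rw [Real.lt_sqrt (by norm_num)]
    norm_num
  · rw [Real.sqrt_lt' (by norm_num)]
    norm_num

private theorem num_sq : Real.sqrt 5 * Real.sqrt 5 = 5 := Real.mul_self_sqrt (by norm_num)

private theorem num_pos : 0 < (1 + Real.sqrt 5) / 2 := by
  have := num_s.1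
  linarith

theorem lam_bd : 0.4811 < lam ∧ lam < 0.4813 := by
  obtain ⟨h1, h2⟩ := num_s
  unfold lam
  constructor
  · rw [Real.lt_log_iff_exp_lt num_pos]
    have h := Real.exp_bound' (x := 0.4811) (by norm_num) (by norm_num) (n := 5) (by norm_num)
    refine lt_of_le_of_lt h ?_
    refine lt_of_lt_of_le ?_ (by linarith : (1.61803 : ℝ) ≤ (1 + Real.sqrt 5) / 2)
    norm_num [Finset.sum_range_succ, Nat.factorial]
  · rw [Real.log_lt_iff_lt_exp num_pos]
    have h := Real.sum_le_exp_of_nonneg (x := 0.4813) (by norm_num) 6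
    refine lt_of_lt_of_le ?_ h
    refine lt_of_le_of_lt (by linarith : (1 + Real.sqrt 5) / 2 ≤ (1.618035 : ℝ)) ?_
    norm_num [Finset.sum_range_succ, Nat.factorial]

theorem log_phi2 : Real.log ((3 + Real.sqrt 5) / 2) = 2 * lam := by
  have h : (3 + Real.sqrt 5) / 2 = ((1 + Real.sqrt 5) / 2) ^ 2 := by
    linear_combination (-(1 / 4) : ℝ) * num_sq
  rw [h, Real.log_pow]
  unfold lam
  norm_num

theorem log_phi3 : Real.log (2 + Real.sqrt 5) = 3 * lam := by
  have h : 2 + Real.sqrt 5 = ((1 + Real.sqrt 5) / 2) ^ 3 := by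
    linear_combination (-(3 / 8) - Real.sqrt 5 / 8 : ℝ) * num_sq
  rw [h, Real.log_pow]
  unfold lam
  norm_num

theorem cy_bd : 4.54 < cy ∧ cy < 4.544 := by
  obtain ⟨h1, h2⟩ := num_s
  obtain ⟨h3, h4⟩ := lam_bd
  have hd : 0 < 3 * Real.sqrt 5 - 5 := by linarith
  unfold cy
  constructor
  · rw [lt_div_iff₀ hd]
    nlinarith [mul_lt_mul_of_pos_left h3 (by linarith : (0 : ℝ) < 2 + Real.sqrt 5)]
  · rw [div_lt_iff₀ hd]
    nlinarith [mul_lt_mul_of_pos_left h4 (by linarith : (0 : ℝ) < 2 + Real.sqrt 5)]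

theorem cx_bd : 3.77 < cx ∧ cx < 3.776 := by
  obtain ⟨h1, h2⟩ := num_s
  obtain ⟨h3, h4⟩ := cy_bd
  unfold cx
  constructor
  · linarith
  · linarith

theorem id1 : 3 * cx - 2 * cy = Real.sqrt 5 := by
  unfold cx
  ring

theorem id2 : cx = cy * ((3 - Real.sqrt 5) / 2) + (2 + Real.sqrt 5) * lam := by
  have hd : 3 * Real.sqrt 5 - 5 ≠ 0 := by
    have := num_s.1
    linarith
  have h : cy * (3 * Real.sqrt 5 - 5) = 2 * (3 * (2 + Real.sqrt 5) * lam - Real.sqrt 5) := by
    unfold cy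
    rw [div_mul_cancel₀ _ hd]
  unfold cx
  linear_combination (1 / 6 : ℝ) * h

end Pool.Agent.RTV
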