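import Pool.Agent.RTV.SumL
import Pool.Agent.RTV.Num

/-!
# RTV/Part: partial sums are bounded below

PLAN: `vv_eq`: for `n ≤ N ≤ n + min r s` every `α < N - n` is counted and no other: `vv = N - n`.  `phi_zero`: outside `[n, n + r + s)` all terms vanish (`N ≤ n`: `vv = 0`; `N ≥ n + r + s`: `n + 1 + α + s ≤ N` for `α < r`).  `phi_ge`: if `N ≥ n + min r s`, one of the
last two indicators is `1`, so `phi ≥ cy - cx ≥ 0`; if `n ≤ N < n + min r s`: `phi = κ (N - n) - cx`.  `part`: the terms with `phi < 0` have `n ≤ N < n + cx n`, there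
`phi ≥ - cx`; so the sum is at least `- cx * ∑ N ∈ [n, 5 n), cc N = - cx * log 5 ≥ - 8` (`cx < 3.776`, `1 + cx < 5`, `log 5 < 1.7`; `exp 1.7 > 5`; or `log 5 ≤ 2` from `exp 2 ≥ 5` is enough: `3.776 * 2 < 8`).  `small`: `κ (N - n) ≥ cx`.
-/

set_option autoImplicit false

namespace Pool.Agent.RTV

theorem vv_eq {n r s N : ℕ} (h1 : n ≤ N) (h2 : N ≤ n + r) (h3 : N ≤ n + s) : vv n r s N = (N : ℝ) - n := by
  unfold vv
  have h : (Finset.range r).filter (fun α => n + 1 + α ≤ N ∧ N < n + 1 + α + s) =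
      Finset.range (N - n) := by
    ext α
    rw [Finset.mem_filter, Finset.mem_range, Finset.mem_range]
    constructor
    · rintro ⟨_, h4, _⟩
      omega
    · intro h4
      refine ⟨by omega, by omega, by omega⟩
  have h5 : (((Finset.range r).filter (fun α => n + 1 + α ≤ N ∧ N < n + 1 + α + s)).card : ℝ) =
      ((N - n : ℕ) : ℝ) := by
    rw [h, Finset.card_range]
  rw [Nat.cast_sub h1] at h5
  convert h5

private theorem part_vv0 {n r s N : ℕ} (h : N < n ∨ n + r + s ≤ N) : vv n r s N = 0 := by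
  unfold vv
  rw [Nat.cast_eq_zero, Finset.card_eq_zero, Finset.filter_eq_empty_iff]
  intro α hα h4
  rw [Finset.mem_range] at hα
  omega

private theorem part_vv_nonneg {n r s N : ℕ} : 0 ≤ vv n r s N := by
  unfold vv
  exact Nat.cast_nonneg _

private theorem part_ind1 {P : Prop} (h : P) : ind P = 1 := by
  unfold ind
  rw [if_pos h]

private theorem part_ind0 {P : Prop} (h : ¬ P) : ind P = 0 := by
  unfold ind
  rw [if_neg h]

private theorem part_ind_nonneg {P : Prop} : 0 ≤ ind P := by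
  unfold ind
  split_ifs <;> norm_num

theorem phi_zero {κ : ℝ} {n r s N : ℕ} (h : N < n ∨ n + r + s ≤ N) : phi κ n r s N = 0 := by
  unfold phi
  rw [part_vv0 h, part_ind0 (P := n ≤ N ∧ N < n + r + s) (by omega),
    part_ind0 (P := n + r ≤ N ∧ N < n + r + s) (by omega),
    part_ind0 (P := n + s ≤ N ∧ N < n + r + s) (by omega)]
  ring

private theorem part_B {κ : ℝ} (hκ : 0 ≤ κ) {n r s N : ℕ} (h1 : n ≤ N) (h2 : N < n + r + s)
    (h : n + r ≤ N ∨ n + s ≤ N) : 0 ≤ phi κ n r s N := by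
  have hx := cx_bd
  have hy := cy_bd
  have hv : 0 ≤ κ * vv n r s N := mul_nonneg hκ part_vv_nonneg
  unfold phi
  rw [part_ind1 (P := n ≤ N ∧ N < n + r + s) ⟨h1, h2⟩]
  rcases h with h | h
  · rw [part_ind1 (P := n + r ≤ N ∧ N < n + r + s) ⟨h, h2⟩]
    have h3 : 0 ≤ cy * ind (n + s ≤ N ∧ N < n + r + s) :=
      mul_nonneg (by linarith) part_ind_nonneg
    linarith
  · rw [part_ind1 (P := n + s ≤ N ∧ N < n + r + s) ⟨h, h2⟩]
    have h3 : 0 ≤ cy * ind (n + r ≤ N ∧ N < n + r + s) :=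
      mul_nonneg (by linarith) part_ind_nonneg
    linarith

private theorem part_C {κ : ℝ} {n r s N : ℕ} (h1 : n ≤ N) (h2 : N < n + r) (h3 : N < n + s) :
    phi κ n r s N = κ * ((N : ℝ) - n) - cx := by
  unfold phi
  rw [vv_eq h1 h2.le h3.le, part_ind1 (P := n ≤ N ∧ N < n + r + s) (by omega),
    part_ind0 (P := n + r ≤ N ∧ N < n + r + s) (by omega),
    part_ind0 (P := n + s ≤ N ∧ N < n + r + s) (by omega)]
  ring

theorem small {κ : ℝ} (hκ : 0 ≤ κ) {n r s N : ℕ} (h : cx ≤ κ * ((N : ℝ) - n)) : 0 ≤ phi κ n r s N := by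
  by_cases h0 : N < n ∨ n + r + s ≤ N
  · rw [phi_zero h0]
  · push Not at h0
    by_cases h1 : n + r ≤ N ∨ n + s ≤ N
    · exact part_B hκ h0.1 h0.2 h1
    · push Not at h1
      rw [part_C h0.1 h1.1 h1.2]
      linarith

private theorem part_lb {n r s N : ℕ} (hn : 1 ≤ n) :
    -cx * ind (n ≤ N ∧ N < 5 * n) ≤ phi (1 / (n : ℝ)) n r s N := by
  have hx := cx_bd
  have hn0 : (0 : ℝ) < n := by exact_mod_cast hn
  have hκ : (0 : ℝ) ≤ 1 / (n : ℝ) := by positivity
  by_cases hi : n ≤ N ∧ N < 5 * n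
  · rw [part_ind1 hi]
    by_cases h0 : N < n ∨ n + r + s ≤ N
    · rw [phi_zero h0]
      linarith
    · push Not at h0
      by_cases h1 : n + r ≤ N ∨ n + s ≤ N
      · have := part_B hκ h0.1 h0.2 h1
        linarith
      · push Not at h1
        rw [part_C h0.1 h1.1 h1.2]
        have h2 : (n : ℝ) ≤ N := by exact_mod_cast hi.1
        have h3 : 0 ≤ 1 / (n : ℝ) * ((N : ℝ) - n) := mul_nonneg hκ (by linarith)
        linarith
  · rw [part_ind0 hi, mul_zero]
    by_cases h0 : N < n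
    · rw [phi_zero (Or.inl h0)]
    · have h1 : 5 * n ≤ N := by omega
      refine small hκ ?_
      have h2 : (5 : ℝ) * n ≤ N := by exact_mod_cast h1
      have h3 : 1 / (n : ℝ) * ((N : ℝ) - n) = (N : ℝ) / n - 1 := by
        field_simp
      rw [h3]
      have h4 : (5 : ℝ) ≤ (N : ℝ) / n := by
        rw [le_div_iff₀ hn0]
        exact h2
      linarith

theorem part {n r s A B : ℕ} (hn : 1 ≤ n) (hA : 1 ≤ A) :
    -8 ≤ ∑ N ∈ Finset.Ico A B, cc N * phi (1 / (n : ℝ)) n r s N := by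
  have hx := cx_bd
  have hn0 : (0 : ℝ) < n := by exact_mod_cast hn
  have h1 : ∑ N ∈ Finset.Ico A B, cc N * (-cx * ind (n ≤ N ∧ N < 5 * n)) ≤
      ∑ N ∈ Finset.Ico A B, cc N * phi (1 / (n : ℝ)) n r s N := by
    refine Finset.sum_le_sum fun N hN => ?_
    have hN1 : 1 ≤ N := hA.trans (Finset.mem_Ico.1 hN).1
    exact mul_le_mul_of_nonneg_left (part_lb hn) (cc_nonneg hN1)
  refine le_trans ?_ h1
  have h2 : ∑ N ∈ Finset.Ico A B, cc N * (-cx * ind (n ≤ N ∧ N < 5 * n)) =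
      -cx * ∑ N ∈ Finset.Ico A B, cc N * ind (n ≤ N ∧ N < 5 * n) := by
    rw [Finset.mul_sum]
    exact Finset.sum_congr rfl fun N _ => by ring
  have h3 : ∑ N ∈ Finset.Ico A B, cc N * ind (n ≤ N ∧ N < 5 * n) ≤
      ∑ N ∈ Finset.Ico n (5 * n), cc N := by
    have h4 : ∑ N ∈ Finset.Ico A B, cc N * ind (n ≤ N ∧ N < 5 * n) =
        ∑ N ∈ (Finset.Ico A B).filter (fun N => n ≤ N ∧ N < 5 * n), cc N := by
      rw [Finset.sum_filter]
      refine Finset.sum_congr rfl fun N _ => ?_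
      by_cases h : n ≤ N ∧ N < 5 * n
      · rw [part_ind1 h, if_pos h, mul_one]
      · rw [part_ind0 h, if_neg h, mul_zero]
    rw [h4]
    refine Finset.sum_le_sum_of_subset_of_nonneg ?_ ?_
    · intro N hN
      rw [Finset.mem_filter] at hN
      exact Finset.mem_Ico.2 hN.2
    · intro N hN _
      exact cc_nonneg (hn.trans (Finset.mem_Ico.1 hN).1)
  have h5 := sum_cc hn (b := 5 * n) (by omega)
  have h6 : Real.log ((5 * n : ℕ) : ℝ) - Real.log n = Real.log 5 := by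
    rw [Nat.cast_mul, Real.log_mul (by norm_num) hn0.ne']
    norm_num
  have h7 : Real.log 5 ≤ 2.08 := by
    have h8 : Real.log 5 ≤ Real.log (2 ^ 3) := Real.log_le_log (by norm_num) (by norm_num)
    rw [Real.log_pow] at h8
    have h9 := Real.log_two_lt_d9
    push_cast at h8
    linarith
  rw [h2]
  rw [h5, h6] at h3
  have h8 : ∑ N ∈ Finset.Ico A B, cc N * ind (n ≤ N ∧ N < 5 * n) ≤ 2.08 := h3.trans h7
  nlinarith

end Pool.Agent.RTV
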