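import Pool.Agent.RTV.Cnt
import Pool.Agent.RTV.Full
import Pool.Agent.RTV.Part

/-!
# RTV/Low: the sum of the local functionals is almost nonnegative
-/

set_option autoImplicit false

namespace Pool.Agent.RTV

private theorem low_ind_nonneg (Q : Prop) : 0 ≤ ind Q := by
  unfold ind
  split_ifs
  · norm_num
  · norm_num

private theorem low_ind_pos {Q : Prop} (h : Q) : ind Q = 1 := by
  unfold ind
  rw [if_pos h]

private theorem low_ind_neg {Q : Prop} (h : ¬ Q) : ind Q = 0 := by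
  unfold ind
  rw [if_neg h]

/-- the bound for one pair -/
private theorem low_one {K M1 n0 n r s : ℕ} {κ : ℕ → ℝ} {κ0 : ℝ} (hκ0 : 0 < κ0)
    (hκ1 : ∀ n, n < n0 → κ n = κ0) (hκ2 : ∀ n, n0 ≤ n → κ n = 1 / (n : ℝ)) (h0 : 1 ≤ n0)
    (h1 : n0 ≤ M1) (h2 : cx ≤ κ0 * ((M1 : ℝ) - n0)) (h3 : M1 < K) (hn : n < K) :
    -(1 / (M1 : ℝ)) * (∑ N ∈ Finset.Ico M1 K, cc N * ind (n ≤ N ∧ N < n + r + s)) -
        8 * ind (n ≤ M1 ∧ M1 < n + r + s) - 8 * ind (n ≤ K - 1 ∧ K - 1 < n + r + s) ≤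
      ∑ N ∈ Finset.Ico M1 K, cc N * phi (κ n) n r s N := by
  have hM1 : (1 : ℝ) ≤ (M1 : ℝ) := by exact_mod_cast h0.trans h1
  have hM0 : (0 : ℝ) < (M1 : ℝ) := by linarith
  have hcc : ∀ N ∈ Finset.Ico M1 K, 0 ≤ cc N := fun N hN =>
    cc_nonneg ((h0.trans h1).trans (Finset.mem_Ico.1 hN).1)
  have hA : 0 ≤ (1 / (M1 : ℝ)) * (∑ N ∈ Finset.Ico M1 K, cc N * ind (n ≤ N ∧ N < n + r + s)) :=
    mul_nonneg (by positivity) (Finset.sum_nonneg fun N hN =>
      mul_nonneg (hcc N hN) (low_ind_nonneg _))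
  have hB := low_ind_nonneg (n ≤ M1 ∧ M1 < n + r + s)
  have hC := low_ind_nonneg (n ≤ K - 1 ∧ K - 1 < n + r + s)
  by_cases c1 : n < n0
  · have h4 : 0 ≤ ∑ N ∈ Finset.Ico M1 K, cc N * phi (κ n) n r s N := by
      refine Finset.sum_nonneg fun N hN => mul_nonneg (hcc N hN) ?_
      rw [hκ1 n c1]
      refine small hκ0.le (h2.trans (mul_le_mul_of_nonneg_left ?_ hκ0.le))
      have h5 : (M1 : ℝ) ≤ (N : ℝ) := by exact_mod_cast (Finset.mem_Ico.1 hN).1
      have h6 : (n : ℝ) ≤ (n0 : ℝ) := by exact_mod_cast c1.le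
      linarith
    linarith
  · have c1' : n0 ≤ n := not_lt.1 c1
    have hn1 : 1 ≤ n := h0.trans c1'
    rw [hκ2 n c1']
    by_cases c2 : n < M1
    · by_cases c3 : n + r + s ≤ M1
      · have h4 : ∑ N ∈ Finset.Ico M1 K, cc N * phi (1 / (n : ℝ)) n r s N = 0 := by
          refine Finset.sum_eq_zero fun N hN => ?_
          rw [phi_zero (Or.inr (c3.trans (Finset.mem_Ico.1 hN).1)), mul_zero]
        rw [h4]
        linarith
      · have h4 := part (n := n) (r := r) (s := s) (A := M1) (B := K) hn1 (h0.trans h1)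
        have h5 : ind (n ≤ M1 ∧ M1 < n + r + s) = 1 := low_ind_pos ⟨c2.le, not_le.1 c3⟩
        rw [h5]
        linarith
    · have c2' : M1 ≤ n := not_lt.1 c2
      by_cases c4 : n + r + s ≤ K
      · have hsub : Finset.Ico n (n + r + s) ⊆ Finset.Ico M1 K := by
          intro N hN
          rw [Finset.mem_Ico] at hN ⊢
          omega
        have h4 : ∑ N ∈ Finset.Ico M1 K, cc N * phi (1 / (n : ℝ)) n r s N =
            ∑ N ∈ Finset.Ico n (n + r + s), cc N * phi (1 / (n : ℝ)) n r s N := by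
          symm
          refine Finset.sum_subset hsub fun N _ hN => ?_
          rw [Finset.mem_Ico] at hN
          rw [phi_zero (by omega), mul_zero]
        have h5 : ∑ N ∈ Finset.Ico M1 K, cc N * ind (n ≤ N ∧ N < n + r + s) =
            Real.log ((n + r + s : ℕ) : ℝ) - Real.log (n : ℝ) := by
          rw [← sum_cc hn1 (by omega : n ≤ n + r + s)]
          symm
          have h6 : ∑ N ∈ Finset.Ico n (n + r + s), cc N =
              ∑ N ∈ Finset.Ico n (n + r + s), cc N * ind (n ≤ N ∧ N < n + r + s) := by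
            refine Finset.sum_congr rfl fun N hN => ?_
            rw [low_ind_pos (Finset.mem_Ico.1 hN), mul_one]
          rw [h6]
          refine Finset.sum_subset hsub fun N _ hN => ?_
          rw [Finset.mem_Ico] at hN
          rw [low_ind_neg hN, mul_zero]
        have h7 := full (n := n) (r := r) (s := s) hn1
        have h8 : 0 ≤ Real.log ((n + r + s : ℕ) : ℝ) - Real.log (n : ℝ) := by
          have h9 : Real.log (n : ℝ) ≤ Real.log ((n + r + s : ℕ) : ℝ) := by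
            refine Real.log_le_log (by exact_mod_cast hn1) ?_
            exact_mod_cast (by omega : n ≤ n + r + s)
          linarith
        have h10 : 1 / (n : ℝ) ≤ 1 / (M1 : ℝ) :=
          one_div_le_one_div_of_le hM0 (by exact_mod_cast c2')
        have h11 := mul_le_mul_of_nonneg_right h10 h8
        rw [h4, h5]
        linarith
      · have h4 := part (n := n) (r := r) (s := s) (A := M1) (B := K) hn1 (h0.trans h1)
        have h5 : ind (n ≤ K - 1 ∧ K - 1 < n + r + s) = 1 := low_ind_pos (by omega)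
        rw [h5]
        linarith

theorem low {X : ℕ → ℝ} (hX : Function.Injective X) {K M M1 n0 : ℕ} {κ : ℕ → ℝ} {κ0 : ℝ} (hκ0 : 0 < κ0)
    (hκ1 : ∀ n, n < n0 → κ n = κ0) (hκ2 : ∀ n, n0 ≤ n → κ n = 1 / (n : ℝ)) (h0 : 1 ≤ n0) (h1 : n0 ≤ M1)
    (h2 : cx ≤ κ0 * ((M1 : ℝ) - n0)) (h3 : M1 < K) (P : Finset (ℕ × ℕ)) (r s : ℕ × ℕ → ℕ)
    (hP : ∀ p ∈ P, Bx X K p (r p) (s p) ∧ lo p < M ∧ df p < K) :
    -(3 * M / M1) * (Real.log K - Real.log M1) - 48 * M ≤
      ∑ p ∈ P, ∑ N ∈ Finset.Ico M1 K, cc N * phi (κ (df p)) (df p) (r p) (s p) N := by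
  have hM11 : 1 ≤ M1 := h0.trans h1
  have hM0 : (0 : ℝ) < (M1 : ℝ) := by exact_mod_cast hM11
  have hcnt : ∀ N, 1 ≤ N → N < K →
      ∑ p ∈ P, ind (df p ≤ N ∧ N < df p + r p + s p) ≤ 3 * M := fun N hN1 hN =>
    cnt_le hX P r s (fun p hp => ⟨(hP p hp).1, (hP p hp).2.1⟩) hN1 hN
  have hone := Finset.sum_le_sum fun p hp =>
    low_one (r := r p) (s := s p) hκ0 hκ1 hκ2 h0 h1 h2 h3 (hP p hp).2.2
  refine le_trans ?_ hone
  rw [Finset.sum_sub_distrib, Finset.sum_sub_distrib, ← Finset.mul_sum, ← Finset.mul_sum,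
    ← Finset.mul_sum, Finset.sum_comm]
  have h4 := hcnt M1 hM11 h3
  have h5 := hcnt (K - 1) (by omega) (by omega)
  have h6 : ∑ N ∈ Finset.Ico M1 K, ∑ p ∈ P, cc N * ind (df p ≤ N ∧ N < df p + r p + s p) ≤
      (3 * M) * (Real.log K - Real.log M1) := by
    rw [← sum_cc hM11 h3.le, Finset.mul_sum]
    refine Finset.sum_le_sum fun N hN => ?_
    rw [← Finset.mul_sum, mul_comm]
    have hN' := Finset.mem_Ico.1 hN
    exact mul_le_mul_of_nonneg_right (hcnt N (by omega) hN'.2) (cc_nonneg (by omega))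
  have h7 := mul_le_mul_of_nonneg_left h6 (by positivity : (0 : ℝ) ≤ 1 / (M1 : ℝ))
  have h8 : 1 / (M1 : ℝ) * ((3 * M) * (Real.log K - Real.log M1)) =
      (3 * M / M1) * (Real.log K - Real.log M1) := by
    field_simp
  rw [h8] at h7
  linarith

end Pool.Agent.RTV
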