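import Pool.Agent.RTV.Defs

/-! # RTV/OrbX: the orbit data of a coding -/

set_option autoImplicit false

namespace Pool.Agent.RTV

open Pool.Agent.Helper44.IET

theorem orb_of {d : ℕ} (E : Exchange d) {x0 : ℝ} {u : ℕ → Fin d} (hu : ∀ n, E.T^[n] x0 ∈ E.interval (u n)) {E2 : ℝ}
    (H2 : ∀ i p l, 0 < p → HasPower u i p l → (l : ℝ) / (p : ℝ) ≤ E2) :
    Orb (fun m => E.T^[m] x0) (fun m => (u m : ℕ)) (d - 1) := by
  have hT : ∀ m, E.T^[m + 1] x0 = E.T^[m] x0 + (E.imageLeft (u m) - E.left (u m)) := fun m => by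
    rw [Function.iterate_succ_apply', E.T_of_mem (hu m)]
  have hinj : ∀ i j, i < j → E.T^[i] x0 ≠ E.T^[j] x0 := by
    intro i j hij he
    have h1 : ∀ m, E.T^[i + m] x0 = E.T^[j + m] x0 := fun m => by
      rw [add_comm i m, add_comm j m, Function.iterate_add_apply, Function.iterate_add_apply, he]
    have h2 : ∀ m, u (i + m) = u (j + m) := fun m =>
      E.interval_inj (hu (i + m)) (by rw [h1 m]; exact hu (j + m))
    have hp : 0 < j - i := by omega
    have h3 : ∀ l, HasPower u i (j - i) l := fun l k _ => by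
      have e : i + k + (j - i) = j + k := by omega
      rw [e]
      exact h2 k
    obtain ⟨l, hl⟩ := exists_nat_gt (E2 * ((j - i : ℕ) : ℝ))
    have h4 := H2 i (j - i) l hp (h3 l)
    have hp' : (0 : ℝ) < ((j - i : ℕ) : ℝ) := by exact_mod_cast hp
    rw [div_le_iff₀ hp'] at h4
    linarith
  refine ⟨?_, ?_, ?_, ?_, ?_⟩
  · intro i j he
    rcases lt_trichotomy i j with h | h | h
    · exact absurd he (hinj i j h)
    · exact h
    · exact absurd he.symm (hinj j i h)
  · intro i j h
    by_contra hn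
    have h1 : u j < u i := by
      rw [Fin.lt_def]
      omega
    have h2 := E.left_add_le h1
    have h3 := (hu j).2
    have h4 := (hu i).1
    have h5 : E.T^[i] x0 ≤ E.T^[j] x0 := h
    linarith
  · intro i
    have := (u i).2
    change (u i : ℕ) ≤ d - 1
    omega
  · intro i j hij h
    have h1 : u i = u j := Fin.ext hij
    have h2 : E.T^[i] x0 < E.T^[j] x0 := h
    change E.T^[i + 1] x0 < E.T^[j + 1] x0
    rw [hT i, hT j, h1]
    linarith
  · intro i j k hij hlt h1 h2
    have hij' : u i = u j := Fin.ext hij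
    have hlt' : E.T^[i] x0 < E.T^[j] x0 := hlt
    have h1' : E.T^[i + 1] x0 < E.T^[k + 1] x0 := h1
    have h2' : E.T^[k + 1] x0 < E.T^[j + 1] x0 := h2
    rw [hT i] at h1'
    rw [hT j, ← hij'] at h2'
    have hz : E.T^[k + 1] x0 - (E.imageLeft (u i) - E.left (u i)) ∈ E.interval (u i) := by
      have a1 := (hu i).1
      have a2 := (hu j).2
      rw [← hij'] at a2
      exact ⟨by linarith, by linarith⟩
    have hTz : E.T (E.T^[k + 1] x0 - (E.imageLeft (u i) - E.left (u i))) = E.T (E.T^[k] x0) := by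
      rw [E.T_of_mem hz, ← Function.iterate_succ_apply' E.T k x0]
      ring
    have hk := (E.T_inj hz (hu k) hTz).1
    change E.T^[i] x0 < E.T^[k] x0 ∧ E.T^[k] x0 < E.T^[j] x0
    rw [← hk]
    exact ⟨by linarith, by linarith⟩

end Pool.Agent.RTV
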