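import Pool.Agent.RTV.AdjA

/-!
# RTV/AdjB: adding one point to a window

PLAN: `split_le`: if `(i, j)` and `(i', j')` are adjacent in the window and `b` lies between both, then `i = i'` (if `X i < X i'`, then `X i < X i' < X b < X j`, so `i'` is between `i` and `j`)
and `j = j'`; `Finset.card_le_one`.  `birth_eq`: the pairs of `Adj X a (N + 1)` which do not contain `a + N` are exactly the pairs of `Adj X a N` which are not split by `a + N`;
by `card_adj` for `N` and `N + 1`: `births + (N - 1 - splits) = N` (`Finset.card_filter_add_card_filter_not` or `Finset.filter_card_add_filter_neg_card_eq_card`).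
-/

set_option autoImplicit false

namespace Pool.Agent.RTV

open Classical in
theorem split_le {X : ℕ → ℝ} (hX : Function.Injective X) (a N b : ℕ) :
    ((Adj X a N).filter fun p => Btw X p b).card ≤ 1 := by
  rw [Finset.card_le_one]
  intro p hp q hq
  rw [Finset.mem_filter, mem_adj] at hp hq
  obtain ⟨⟨hp1, hp2, hp3, hp4⟩, hpb⟩ := hp
  obtain ⟨⟨hq1, hq2, hq3, hq4⟩, hqb⟩ := hq
  obtain ⟨b1, b2⟩ := hpb
  obtain ⟨c1, c2⟩ := hqb
  have e1 : p.1 = q.1 := by
    apply hX
    rcases lt_trichotomy (X p.1) (X q.1) with h | h | h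
    · exact absurd ⟨h, c1.trans b2⟩ (hp4 q.1 hq1.1 hq1.2)
    · exact h
    · exact absurd ⟨h, b1.trans c2⟩ (hq4 p.1 hp1.1 hp1.2)
  have e2 : p.2 = q.2 := by
    apply hX
    rcases lt_trichotomy (X p.2) (X q.2) with h | h | h
    · exact absurd ⟨c1.trans b2, h⟩ (hq4 p.2 hp2.1 hp2.2)
    · exact h
    · exact absurd ⟨b1.trans c2, h⟩ (hp4 q.2 hq2.1 hq2.2)
  exact Prod.ext e1 e2

open Classical in
theorem birth_eq {X : ℕ → ℝ} (hX : Function.Injective X) (a : ℕ) {N : ℕ} (hN : 1 ≤ N) :
    ((Adj X a (N + 1)).filter fun p => hi p = a + N).card =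
      1 + ((Adj X a N).filter fun p => Btw X p (a + N)).card := by
  have hset : (Adj X a (N + 1)).filter (fun p => ¬ hi p = a + N) =
      (Adj X a N).filter (fun p => ¬ Btw X p (a + N)) := by
    ext p
    rw [Finset.mem_filter, Finset.mem_filter, mem_adj, mem_adj]
    constructor
    · rintro ⟨⟨h1, h2, h3, h4⟩, h5⟩
      have h6 : p.1 < a + N ∧ p.2 < a + N := by
        unfold hi at h5
        rcases le_total p.1 p.2 with h | h
        · rw [max_eq_right h] at h5
          omega
        · rw [max_eq_left h] at h5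
          omega
      exact ⟨⟨⟨h1.1, h6.1⟩, ⟨h2.1, h6.2⟩, h3, fun k hk hk' => h4 k hk (by omega)⟩,
        h4 (a + N) (by omega) (by omega)⟩
    · rintro ⟨⟨h1, h2, h3, h4⟩, h5⟩
      refine ⟨⟨⟨h1.1, by omega⟩, ⟨h2.1, by omega⟩, h3, fun k hk hk' => ?_⟩, ?_⟩
      · rcases Nat.lt_or_ge k (a + N) with h | h
        · exact h4 k hk h
        · have : k = a + N := by omega
          rw [this]
          exact h5
      · unfold hi
        have := max_lt h1.2 h2.2
        omega
  have c1 := card_adj hX a (N := N + 1) (by omega)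
  have c2 := card_adj hX a hN
  have d1 := Finset.card_filter_add_card_filter_not (s := Adj X a (N + 1))
    (fun p => hi p = a + N)
  have d2 := Finset.card_filter_add_card_filter_not (s := Adj X a N)
    (fun p => Btw X p (a + N))
  rw [hset] at d1
  omega

end Pool.Agent.RTV
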