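import Pool.Agent.RTV.BoxC
import Pool.Agent.RTV.AdjB
import Pool.Agent.RTV.Num

/-!
# RTV/Up: upper bound for the sum of the local functionals at a given length
-/

set_option autoImplicit false

namespace Pool.Agent.RTV

open Classical in
private lemma Up_ind_card (P : Finset (ℕ × ℕ)) (C : ℕ × ℕ → Prop) :
    ∑ p ∈ P, ind (C p) = ((P.filter C).card : ℝ) := by
  unfold ind
  exact Finset.sum_boole C P

private lemma Up_ind_le (P F : Finset (ℕ × ℕ)) (C : ℕ × ℕ → Prop) (h : ∀ p ∈ P, C p → p ∈ F) :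
    ∑ p ∈ P, ind (C p) ≤ (F.card : ℝ) := by
  classical
  rw [Up_ind_card]
  have h1 : (P.filter C).card ≤ F.card := by
    apply Finset.card_le_card
    intro p hp
    rw [Finset.mem_filter] at hp
    exact h p hp.1 hp.2
  exact_mod_cast h1

private lemma Up_ind_ge (P F : Finset (ℕ × ℕ)) (C : ℕ × ℕ → Prop) (h : ∀ p ∈ F, p ∈ P ∧ C p) :
    (F.card : ℝ) ≤ ∑ p ∈ P, ind (C p) := by
  classical
  rw [Up_ind_card]
  have h1 : F.card ≤ (P.filter C).card := by
    apply Finset.card_le_card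
    intro p hp
    rw [Finset.mem_filter]
    exact h p hp
  exact_mod_cast h1

private lemma Up_ind_nonneg (C : Prop) : 0 ≤ ind C := by
  unfold ind
  split_ifs <;> norm_num

private lemma Up_mul_le (P A : Finset (ℕ × ℕ)) (f : ℕ × ℕ → ℝ) (hf : ∀ p, 0 ≤ f p) :
    ∑ p ∈ P, f p * ind (p ∈ A) ≤ ∑ p ∈ A, f p := by
  classical
  have h1 : ∀ p ∈ P, f p * ind (p ∈ A) = if p ∈ A then f p else 0 := by
    intro p _
    unfold ind
    by_cases h : p ∈ A
    · rw [if_pos h, if_pos h, mul_one]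
    · rw [if_neg h, if_neg h, mul_zero]
  rw [Finset.sum_congr rfl h1, ← Finset.sum_filter]
  apply Finset.sum_le_sum_of_subset_of_nonneg
  · intro p hp
    exact (Finset.mem_filter.1 hp).2
  · intro p _ _
    exact hf p

private lemma Up_split (n r s N : ℕ) :
    ind (n ≤ N ∧ N < n + r + s) = ind (n ≤ N ∧ N < n + r) + ind (n + r ≤ N ∧ N < n + r + s) := by
  unfold ind
  by_cases h1 : n ≤ N
  · by_cases h2 : N < n + r
    · have h3 : n ≤ N ∧ N < n + r + s := ⟨h1, by omega⟩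
      have h4 : ¬ (n + r ≤ N ∧ N < n + r + s) := by omega
      have h5 : n ≤ N ∧ N < n + r := ⟨h1, h2⟩
      rw [if_pos h3, if_neg h4, if_pos h5, add_zero]
    · have h5 : ¬ (n ≤ N ∧ N < n + r) := by omega
      by_cases h6 : N < n + r + s
      · have h3 : n ≤ N ∧ N < n + r + s := ⟨h1, h6⟩
        have h4 : n + r ≤ N ∧ N < n + r + s := ⟨by omega, h6⟩
        rw [if_pos h3, if_pos h4, if_neg h5, zero_add]
      · have h3 : ¬ (n ≤ N ∧ N < n + r + s) := fun h => h6 h.2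
        have h4 : ¬ (n + r ≤ N ∧ N < n + r + s) := fun h => h6 h.2
        rw [if_neg h3, if_neg h4, if_neg h5, zero_add]
  · have h3 : ¬ (n ≤ N ∧ N < n + r + s) := fun h => h1 h.1
    have h4 : ¬ (n + r ≤ N ∧ N < n + r + s) := by omega
    have h5 : ¬ (n ≤ N ∧ N < n + r) := fun h => h1 h.1
    rw [if_neg h3, if_neg h4, if_neg h5, zero_add]

private lemma Up_fst_le_hi (p : ℕ × ℕ) : p.1 ≤ hi p := le_max_left _ _

private lemma Up_snd_le_hi (p : ℕ × ℕ) : p.2 ≤ hi p := le_max_right _ _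

private lemma Up_mem_PP {X : ℕ → ℝ} {K M N a : ℕ} {p : ℕ × ℕ} (h : p ∈ Adj X a (N + 1))
    (hN : N < K) (ha : K ≤ a) (haM : a + K < M) : p ∈ PP X K M := by
  obtain ⟨h1, h2, h3, h4, h5⟩ := adj_mid h
  have e1 := Up_fst_le_hi p
  have e2 := Up_snd_le_hi p
  classical
  unfold PP
  rw [Finset.mem_filter, Finset.mem_product, Finset.mem_range, Finset.mem_range]
  refine ⟨⟨by omega, by omega⟩, h1, h2, by omega, by omega, ?_⟩
  unfold df
  omega

private lemma Up_lo_lt {X : ℕ → ℝ} {K M : ℕ} {p : ℕ × ℕ} (h : p ∈ PP X K M) : lo p < M := by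
  classical
  unfold PP at h
  rw [Finset.mem_filter] at h
  exact h.2.2.2.2.1

/-- number of splits by the next point -/
private noncomputable def Up_R (X : ℕ → ℝ) (N a : ℕ) : ℝ :=
  ∑ p ∈ Adj X a N, ind (Btw X p (a + N))

private lemma Up_R_card (X : ℕ → ℝ) (N a : ℕ) : Up_R X N a =
    ((@Finset.filter (ℕ × ℕ) (fun p => Btw X p (a + N)) (fun _ => Classical.propDecidable _)
      (Adj X a N)).card : ℝ) := by
  unfold Up_R
  exact Up_ind_card (Adj X a N) (fun p => Btw X p (a + N))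

private lemma Up_R_nonneg (X : ℕ → ℝ) (N a : ℕ) : 0 ≤ Up_R X N a := by
  rw [Up_R_card]
  exact Nat.cast_nonneg _

private lemma Up_R_le {X : ℕ → ℝ} (hX : Function.Injective X) (N a : ℕ) : Up_R X N a ≤ 1 := by
  rw [Up_R_card]
  have h := split_le hX a N (a + N)
  exact_mod_cast h

private lemma Up_left {X : ℕ → ℝ} (hX : Function.Injective X) (P : Finset (ℕ × ℕ)) (a N : ℕ) :
    ∑ p ∈ P, ind (p ∈ Adj X a N ∧ 0 < a ∧ Btw X p (a - 1)) ≤ 1 := by
  classical
  refine le_trans (Up_ind_le P (@Finset.filter (ℕ × ℕ) (fun p => Btw X p (a - 1))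
    (fun _ => Classical.propDecidable _) (Adj X a N)) _ ?_) ?_
  · intro p _ h
    rw [Finset.mem_filter]
    exact ⟨h.1, h.2.2⟩
  · have h := split_le hX a N (a - 1)
    exact_mod_cast h

private lemma Up_right {X : ℕ → ℝ} (P : Finset (ℕ × ℕ)) (a N : ℕ) :
    ∑ p ∈ P, ind (p ∈ Adj X a N ∧ Btw X p (a + N)) ≤ Up_R X N a := by
  classical
  rw [Up_R_card]
  apply Up_ind_le
  intro p _ h
  rw [Finset.mem_filter]
  exact h

private lemma Up_birth {X : ℕ → ℝ} (hX : Function.Injective X) {K M N a : ℕ} (hN1 : 1 ≤ N)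
    (hN : N < K) (ha : K ≤ a) (haM : a + K < M) :
    1 + Up_R X N a ≤ ∑ p ∈ PP X K M, ind (p ∈ Adj X a (N + 1) ∧ hi p = a + N) := by
  classical
  have h1 := birth_eq hX a hN1
  have h2 : 1 + Up_R X N a =
      (((Adj X a (N + 1)).filter (fun p => hi p = a + N)).card : ℝ) := by
    rw [Up_R_card, h1]
    push_cast
    ring
  rw [h2]
  apply Up_ind_ge
  intro p hp
  rw [Finset.mem_filter] at hp
  exact ⟨Up_mem_PP hp.1 hN ha haM, hp.1, hp.2⟩

private lemma Up_Rsum {X : ℕ → ℝ} (hX : Function.Injective X) {K M : ℕ} (N : ℕ) (hM : 2 * K ≤ M) :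
    ∑ a ∈ Finset.range M, Up_R X N a ≤ ∑ a ∈ Finset.Ico K (M - K), Up_R X N a + 2 * K := by
  have h1 : Finset.range M = (Finset.Ico 0 K ∪ Finset.Ico K (M - K)) ∪ Finset.Ico (M - K) M := by
    rw [Finset.Ico_union_Ico_eq_Ico (by omega) (by omega),
      Finset.Ico_union_Ico_eq_Ico (by omega) (by omega), Finset.range_eq_Ico]
  have h2 : Disjoint (Finset.Ico 0 K ∪ Finset.Ico K (M - K)) (Finset.Ico (M - K) M) := by
    rw [Finset.Ico_union_Ico_eq_Ico (by omega) (by omega)]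
    exact Finset.Ico_disjoint_Ico_consecutive _ _ _
  have h3 : Disjoint (Finset.Ico 0 K) (Finset.Ico K (M - K)) :=
    Finset.Ico_disjoint_Ico_consecutive _ _ _
  rw [h1, Finset.sum_union h2, Finset.sum_union h3]
  have h4 : ∑ a ∈ Finset.Ico 0 K, Up_R X N a ≤ K := by
    refine le_trans (Finset.sum_le_card_nsmul _ _ 1 (fun a _ => Up_R_le hX N a)) ?_
    simp
  have h5 : ∑ a ∈ Finset.Ico (M - K) M, Up_R X N a ≤ K := by
    refine le_trans (Finset.sum_le_card_nsmul _ _ 1 (fun a _ => Up_R_le hX N a)) ?_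
    rw [Nat.card_Ico, nsmul_eq_mul, mul_one]
    have h6 : M - (M - K) = K := by omega
    rw [h6]
  linarith

private lemma Up_mid {X : ℕ → ℝ} (hX : Function.Injective X) {K M : ℕ} (N : ℕ) (hM : 2 * K ≤ M) :
    ∑ a ∈ Finset.Ico K (M - K), Up_R X N a ≤ M := by
  refine le_trans (Finset.sum_le_card_nsmul _ _ 1 (fun a _ => Up_R_le hX N a)) ?_
  rw [Nat.card_Ico, nsmul_eq_mul, mul_one]
  have h6 : M - K - K ≤ M := by omega
  exact_mod_cast h6

private lemma Up_births {X : ℕ → ℝ} (hX : Function.Injective X) {K M N : ℕ} (hN1 : 1 ≤ N)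
    (hN : N < K) (hM : 2 * K ≤ M) :
    ((M : ℝ) - 2 * K) + ∑ a ∈ Finset.Ico K (M - K), Up_R X N a ≤
      ∑ a ∈ Finset.range M, ∑ p ∈ PP X K M, ind (p ∈ Adj X a (N + 1) ∧ hi p = a + N) := by
  have h1 : ∑ a ∈ Finset.Ico K (M - K), (1 + Up_R X N a) ≤
      ∑ a ∈ Finset.Ico K (M - K), ∑ p ∈ PP X K M, ind (p ∈ Adj X a (N + 1) ∧ hi p = a + N) := by
    apply Finset.sum_le_sum
    intro a ha
    rw [Finset.mem_Ico] at ha
    exact Up_birth hX hN1 hN ha.1 (by omega)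
  have h2 : ∑ a ∈ Finset.Ico K (M - K), ∑ p ∈ PP X K M,
      ind (p ∈ Adj X a (N + 1) ∧ hi p = a + N) ≤
      ∑ a ∈ Finset.range M, ∑ p ∈ PP X K M, ind (p ∈ Adj X a (N + 1) ∧ hi p = a + N) := by
    apply Finset.sum_le_sum_of_subset_of_nonneg
    · intro a ha
      rw [Finset.mem_Ico] at ha
      rw [Finset.mem_range]
      omega
    · intro a _ _
      exact Finset.sum_nonneg (fun p _ => Up_ind_nonneg _)
  have h3 : ∑ a ∈ Finset.Ico K (M - K), (1 + Up_R X N a) =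
      ((M : ℝ) - 2 * K) + ∑ a ∈ Finset.Ico K (M - K), Up_R X N a := by
    rw [Finset.sum_add_distrib, Finset.sum_const, Nat.card_Ico, nsmul_eq_mul, mul_one]
    have h4 : ((M - K - K : ℕ) : ℝ) = (M : ℝ) - 2 * K := by
      have h5 : M - K - K + 2 * K = M := by omega
      have h6 : ((M - K - K : ℕ) : ℝ) + 2 * K = M := by exact_mod_cast h5
      linarith
    rw [h4]
  linarith

theorem up {X : ℕ → ℝ} (hX : Function.Injective X) {K M N : ℕ} {κ : ℕ → ℝ} (hκ : ∀ n, 0 ≤ κ n) (r s : ℕ × ℕ → ℕ)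
    (hP : ∀ p ∈ PP X K M, Bx X K p (r p) (s p)) (hN1 : 1 ≤ N) (hN : N < K) (hM : 2 * K ≤ M) :
    ∑ p ∈ PP X K M, phi (κ (df p)) (df p) (r p) (s p) N ≤
      ∑ a ∈ Finset.range M, ∑ p ∈ Adj X a N, κ (df p) - Real.sqrt 5 * M + 2 * K * (cx + cy) := by
  have hvv : ∀ p ∈ PP X K M, vv (df p) (r p) (s p) N =
      ∑ a ∈ Finset.range M, ind (p ∈ Adj X a N) := fun p hp =>
    (cnt_adj (hP p hp) (Up_lo_lt hp) hN.le).symm
  have hB : ∀ p ∈ PP X K M, ind (df p ≤ N ∧ N < df p + r p) =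
      ∑ a ∈ Finset.range M, ind (p ∈ Adj X a (N + 1) ∧ hi p = a + N) := fun p hp =>
    (cnt_birth (hP p hp) (Up_lo_lt hp) hN).symm
  have hL : ∀ p ∈ PP X K M, ind (df p + r p ≤ N ∧ N < df p + r p + s p) =
      ∑ a ∈ Finset.range M, ind (p ∈ Adj X a N ∧ 0 < a ∧ Btw X p (a - 1)) := fun p hp =>
    (cnt_left (hP p hp) (Up_lo_lt hp) hN).symm
  have hR : ∀ p ∈ PP X K M, ind (df p + s p ≤ N ∧ N < df p + r p + s p) =
      ∑ a ∈ Finset.range M, ind (p ∈ Adj X a N ∧ Btw X p (a + N)) := fun p hp =>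
    (cnt_right (hP p hp) (Up_lo_lt hp) hN).symm
  have e1 : ∑ p ∈ PP X K M, phi (κ (df p)) (df p) (r p) (s p) N =
      ∑ p ∈ PP X K M, κ (df p) * vv (df p) (r p) (s p) N -
        cx * ∑ p ∈ PP X K M, ind (df p ≤ N ∧ N < df p + r p) +
        (cy - cx) * ∑ p ∈ PP X K M, ind (df p + r p ≤ N ∧ N < df p + r p + s p) +
        cy * ∑ p ∈ PP X K M, ind (df p + s p ≤ N ∧ N < df p + r p + s p) := by
    rw [Finset.mul_sum, Finset.mul_sum, Finset.mul_sum, ← Finset.sum_sub_distrib,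
      ← Finset.sum_add_distrib, ← Finset.sum_add_distrib]
    apply Finset.sum_congr rfl
    intro p _
    unfold phi
    rw [Up_split]
    ring
  have b1 : ∑ p ∈ PP X K M, κ (df p) * vv (df p) (r p) (s p) N ≤
      ∑ a ∈ Finset.range M, ∑ p ∈ Adj X a N, κ (df p) := by
    have e2 : ∑ p ∈ PP X K M, κ (df p) * vv (df p) (r p) (s p) N =
        ∑ a ∈ Finset.range M, ∑ p ∈ PP X K M, κ (df p) * ind (p ∈ Adj X a N) := by
      rw [Finset.sum_comm]
      apply Finset.sum_congr rfl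
      intro p hp
      rw [hvv p hp, Finset.mul_sum]
    rw [e2]
    apply Finset.sum_le_sum
    intro a _
    exact Up_mul_le (PP X K M) (Adj X a N) (fun p => κ (df p)) (fun p => hκ _)
  have b2 : ∑ p ∈ PP X K M, ind (df p + r p ≤ N ∧ N < df p + r p + s p) ≤ M := by
    rw [Finset.sum_congr rfl hL, Finset.sum_comm]
    refine le_trans (Finset.sum_le_card_nsmul _ _ 1 (fun a _ => Up_left hX (PP X K M) a N)) ?_
    rw [Finset.card_range, nsmul_eq_mul, mul_one]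
  have b3 : ∑ p ∈ PP X K M, ind (df p + s p ≤ N ∧ N < df p + r p + s p) ≤
      ∑ a ∈ Finset.Ico K (M - K), Up_R X N a + 2 * K := by
    rw [Finset.sum_congr rfl hR, Finset.sum_comm]
    refine le_trans (Finset.sum_le_sum (fun a _ => Up_right (PP X K M) a N)) ?_
    exact Up_Rsum hX N hM
  have b4 : ((M : ℝ) - 2 * K) + ∑ a ∈ Finset.Ico K (M - K), Up_R X N a ≤
      ∑ p ∈ PP X K M, ind (df p ≤ N ∧ N < df p + r p) := by
    rw [Finset.sum_congr rfl hB, Finset.sum_comm]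
    exact Up_births hX hN1 hN hM
  have b5 := Up_mid hX N hM
  have hcx := cx_bd.1
  have hcx2 := cx_bd.2
  have hcy := cy_bd.1
  have hid := id1
  rw [e1]
  have c2 : (cy - cx) * ∑ p ∈ PP X K M, ind (df p + r p ≤ N ∧ N < df p + r p + s p) ≤
      (cy - cx) * M := mul_le_mul_of_nonneg_left b2 (by linarith)
  have c3 : cy * ∑ p ∈ PP X K M, ind (df p + s p ≤ N ∧ N < df p + r p + s p) ≤
      cy * (∑ a ∈ Finset.Ico K (M - K), Up_R X N a + 2 * K) :=
    mul_le_mul_of_nonneg_left b3 (by linarith)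
  have c4 : cx * (((M : ℝ) - 2 * K) + ∑ a ∈ Finset.Ico K (M - K), Up_R X N a) ≤
      cx * ∑ p ∈ PP X K M, ind (df p ≤ N ∧ N < df p + r p) :=
    mul_le_mul_of_nonneg_left b4 (by linarith)
  have c5 : (cy - cx) * ∑ a ∈ Finset.Ico K (M - K), Up_R X N a ≤ (cy - cx) * M :=
    mul_le_mul_of_nonneg_left b5 (by linarith)
  rw [← hid]
  nlinarith

end Pool.Agent.RTV
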