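import Pool.Agent.RTV.Life
import Pool.Agent.RTV.Low
import Pool.Agent.RTV.Up
import Pool.Agent.RTV.Lim
import Pool.Agent.RTV.OrbX

/-!
# RTV/Fin: the lower bound `1 + √5 / (d - 1)`
-/

set_option autoImplicit false

namespace Pool.Agent.RTV

open Pool.Agent.Helper44.IET

/-- All runs of period `n` are bounded by the critical exponents. -/
private theorem fin_run {d : ℕ} {u : ℕ → Fin d} {E : ℝ} {n0 : ℕ}
    (H : ∀ i p l, 0 < p → n0 ≤ p → HasPower u i p l → (l : ℝ) / (p : ℝ) ≤ E) {i n t : ℕ} (hn : 1 ≤ n) (hn0 : n0 ≤ n)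
    (h : ∀ m < t, (u (i + m) : ℕ) = (u (i + n + m) : ℕ)) : (t : ℝ) ≤ (E - 1) * n := by
  have h1 : HasPower u i n (n + t) := by
    intro j hj
    have h2 := h j (by omega)
    have h3 : i + j + n = i + n + j := by omega
    rw [h3]
    exact Fin.ext h2
  have h2 := H i n (n + t) (by omega) hn0 h1
  have hn' : (0 : ℝ) < n := by exact_mod_cast hn
  rw [div_le_iff₀ hn'] at h2
  push_cast at h2
  nlinarith

theorem main5 {d : ℕ} {X : ℕ → ℝ} {u : ℕ → Fin d} {D : ℕ} (h : Orb X (fun m => (u m : ℕ)) D) {E1 E2 : ℝ} {n0 : ℕ}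
    (hE1 : 1 < E1) (H1 : ∀ i p l, 0 < p → n0 ≤ p → HasPower u i p l → (l : ℝ) / (p : ℝ) ≤ E1)
    (H2' : ∀ i p l, 0 < p → HasPower u i p l → (l : ℝ) / (p : ℝ) ≤ E2) : Real.sqrt 5 ≤ (E1 - 1) * D := by
  classical
  -- we may assume `1 ≤ E2`
  obtain ⟨F, hF1, H2⟩ : ∃ F : ℝ, 1 ≤ F ∧ ∀ i p l, 0 < p → HasPower u i p l → (l : ℝ) / (p : ℝ) ≤ F :=
    ⟨max 1 E2, le_max_left _ _, fun i p l hp hpow => le_trans (H2' i p l hp hpow) (le_max_right _ _)⟩
  have key : ∀ n1 : ℕ, n0 ≤ n1 → 1 ≤ n1 → Real.sqrt 5 ≤ (E1 - 1 + 1 / (n1 : ℝ)) * D := by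
    intro n1 hn01 hn1
    have hn1' : (0 : ℝ) < n1 := by exact_mod_cast hn1
    set η : ℝ := E1 - 1 + 1 / (n1 : ℝ) with hη
    have hη0 : 0 < η := by
      have : 0 < 1 / (n1 : ℝ) := by positivity
      rw [hη]; linarith
    set Q : ℝ := (F - 1) * n1 + 1 with hQ
    have hQ0 : 0 < Q := by
      have : 0 ≤ (F - 1) * n1 := mul_nonneg (by linarith) hn1'.le
      rw [hQ]; linarith
    set κ0 : ℝ := η / Q with hκ0
    have hκ0p : 0 < κ0 := div_pos hη0 hQ0
    set κ : ℕ → ℝ := fun n => if n < n1 then κ0 else 1 / (n : ℝ) with hκ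
    set ℓ : ℕ → ℕ := fun n => if n < n1 then ⌊(F - 1) * n⌋₊ else ⌊(E1 - 1) * n⌋₊ with hℓ
    have κnn : ∀ n, 0 ≤ κ n := by
      intro n
      simp only [hκ]
      split_ifs
      · exact hκ0p.le
      · positivity
    have hηκ : ∀ n, 1 ≤ n → κ n * (ℓ n + 1) ≤ η := by
      intro n hn
      have hn' : (0 : ℝ) < n := by exact_mod_cast hn
      simp only [hκ, hℓ]
      split_ifs with hlt
      · have h1 : ((⌊(F - 1) * n⌋₊ : ℕ) : ℝ) ≤ (F - 1) * n := Nat.floor_le (mul_nonneg (by linarith) hn'.le)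
        have h2 : (n : ℝ) ≤ n1 := by exact_mod_cast hlt.le
        have h3 : (F - 1) * (n : ℝ) ≤ (F - 1) * n1 := mul_le_mul_of_nonneg_left h2 (by linarith)
        calc κ0 * (((⌊(F - 1) * n⌋₊ : ℕ) : ℝ) + 1) ≤ κ0 * Q := by
              apply mul_le_mul_of_nonneg_left _ hκ0p.le
              rw [hQ]; linarith
          _ = η := by rw [hκ0]; field_simp
      · have h1 : ((⌊(E1 - 1) * n⌋₊ : ℕ) : ℝ) ≤ (E1 - 1) * n := Nat.floor_le (mul_nonneg (by linarith) hn'.le)
        have h2 : (n1 : ℝ) ≤ n := by exact_mod_cast (not_lt.mp hlt)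
        calc 1 / (n : ℝ) * (((⌊(E1 - 1) * n⌋₊ : ℕ) : ℝ) + 1) ≤ 1 / (n : ℝ) * ((E1 - 1) * n + 1) := by
              apply mul_le_mul_of_nonneg_left _ (by positivity)
              linarith
          _ = E1 - 1 + 1 / (n : ℝ) := by field_simp
          _ ≤ η := by
              rw [hη]
              have := one_div_le_one_div_of_le hn1' h2
              linarith
    have hrun : ∀ i n t, 1 ≤ n → (∀ m < t, (u (i + m) : ℕ) = (u (i + n + m) : ℕ)) → t ≤ ℓ n := by
      intro i n t hn ht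
      simp only [hℓ]
      split_ifs with hlt
      · apply Nat.le_floor
        exact fin_run (n0 := 0) (fun i p l hp _ hpow => H2 i p l hp hpow) hn (Nat.zero_le _) ht
      · apply Nat.le_floor
        exact fin_run H1 hn (by omega) ht
    obtain ⟨m0, hm0⟩ := exists_nat_ge (cx / κ0)
    refine lim_bound (m1 := n1 + m0) fun M1 hM1 hM1' K hK => ?_
    have hcx : cx ≤ κ0 * ((M1 : ℝ) - n1) := by
      have h1 : (n1 : ℝ) + m0 ≤ M1 := by exact_mod_cast hM1
      have h2 : cx / κ0 ≤ (M1 : ℝ) - n1 := by linarith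
      rw [div_le_iff₀ hκ0p] at h2
      linarith
    refine ⟨η * D * ((Finset.range K).sup ℓ : ℕ) + 2 * K * (cx + cy), fun M hM => ?_⟩
    -- the boxes
    have hbox : ∀ p ∈ PP X K M, ∃ rs : ℕ × ℕ, Bx X K p rs.1 rs.2 := by
      intro p hp
      unfold PP at hp
      rw [Finset.mem_filter] at hp
      obtain ⟨-, hlt, hmid, hK0, -, -⟩ := hp
      obtain ⟨r, s, hb⟩ := bx_exists (by omega) hlt hmid hK0
      exact ⟨(r, s), hb⟩
    choose! rs hrs using hbox
    have hP : ∀ p ∈ PP X K M, Bx X K p (rs p).1 (rs p).2 ∧ lo p < M ∧ df p < K := by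
      intro p hp
      refine ⟨hrs p hp, ?_, ?_⟩
      · unfold PP at hp
        rw [Finset.mem_filter] at hp
        exact hp.2.2.2.2.1
      · unfold PP at hp
        rw [Finset.mem_filter] at hp
        exact hp.2.2.2.2.2
    have hlow := low (M := M) h.inj hκ0p (κ := κ) (n0 := n1) (fun n hn => by simp only [hκ]; rw [if_pos hn])
      (fun n hn => by simp only [hκ]; rw [if_neg (by omega)]) hn1 (by omega) hcx hK (PP X K M) (fun p => (rs p).1)
      (fun p => (rs p).2) hP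
    refine hlow.trans ?_
    rw [Finset.sum_comm]
    have hsum : ∑ N ∈ Finset.Ico M1 K, cc N = Real.log K - Real.log M1 := sum_cc hM1' hK.le
    rw [← hsum, Finset.sum_mul]
    apply Finset.sum_le_sum
    intro N hN
    rw [Finset.mem_Ico] at hN
    rw [← Finset.mul_sum]
    apply mul_le_mul_of_nonneg_left _ (cc_nonneg (by omega))
    have hup := up h.inj (κ := κ) κnn (fun p => (rs p).1) (fun p => (rs p).2) (fun p hp => hrs p hp)
      (N := N) (by omega) hN.2 hM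
    have hlife := life h κ κnn ℓ hηκ hrun M N
    have hsup : ((Finset.range N).sup ℓ : ℕ) ≤ (Finset.range K).sup ℓ :=
      Finset.sup_mono (Finset.range_mono hN.2.le)
    have hsup' : (((Finset.range N).sup ℓ : ℕ) : ℝ) ≤ (((Finset.range K).sup ℓ : ℕ) : ℝ) := by exact_mod_cast hsup
    have hηD : 0 ≤ η * D := mul_nonneg hη0.le (Nat.cast_nonneg _)
    have h1 : η * D * (M + ((Finset.range N).sup ℓ : ℕ)) ≤ η * D * M + η * D * ((Finset.range K).sup ℓ : ℕ) := by
      rw [mul_add]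
      have := mul_le_mul_of_nonneg_left hsup' hηD
      linarith
    calc _ ≤ _ := hup
      _ ≤ _ := by linarith
  -- limit `n1 → ∞`
  by_contra hc
  push Not at hc
  have hpos : 0 < Real.sqrt 5 - (E1 - 1) * D := by linarith
  obtain ⟨n2, hn2⟩ := exists_nat_gt ((D : ℝ) / (Real.sqrt 5 - (E1 - 1) * D))
  have h1 := key (n0 + n2 + 1) (by omega) (by omega)
  have hN : (0 : ℝ) < ((n0 + n2 + 1 : ℕ) : ℝ) := by exact_mod_cast Nat.succ_pos _
  rw [div_lt_iff₀ hpos] at hn2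
  have h2 : (n2 : ℝ) ≤ ((n0 + n2 + 1 : ℕ) : ℝ) := by exact_mod_cast (by omega : n2 ≤ n0 + n2 + 1)
  have h3 : (D : ℝ) < ((n0 + n2 + 1 : ℕ) : ℝ) * (Real.sqrt 5 - (E1 - 1) * D) :=
    lt_of_lt_of_le hn2 (mul_le_mul_of_nonneg_right h2 hpos.le)
  have h4 : (E1 - 1 + 1 / ((n0 + n2 + 1 : ℕ) : ℝ)) * D = (E1 - 1) * D + D / ((n0 + n2 + 1 : ℕ) : ℝ) := by ring
  rw [h4] at h1
  have h5 : (D : ℝ) / ((n0 + n2 + 1 : ℕ) : ℝ) < Real.sqrt 5 - (E1 - 1) * D := by
    rw [div_lt_iff₀ hN]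
    linarith
  linarith

/-- lower bound for every coding of a `d`-interval exchange -/
theorem lower5 (d : ℕ) (hd : 2 ≤ d) (u : ℕ → Fin d) (hu : u ∈ Codings d) :
    ((1 + Real.sqrt 5 / ((d : ℝ) - 1) : ℝ) : EReal) ≤ asympCritExp u := by
  obtain ⟨E, _, _, x0, _, hx⟩ := hu
  unfold asympCritExp
  split_ifs with htop
  · exact le_top
  · by_contra hc
    push Not at hc
    obtain ⟨n0, hn0⟩ := iInf_lt_iff.mp hc
    obtain ⟨E1, hE1, hE1'⟩ := EReal.lt_iff_exists_real_btwn.mp hn0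
    obtain ⟨E2, hE2, _⟩ := EReal.lt_iff_exists_real_btwn.mp (lt_top_iff_ne_top.mpr htop)
    have hd0 : (0 : ℝ) < (d : ℝ) - 1 := by
      have : (2 : ℝ) ≤ d := by exact_mod_cast hd
      linarith
    have hs5 : 0 < Real.sqrt 5 := Real.sqrt_pos.2 (by norm_num)
    have hlt : E1 < 1 + Real.sqrt 5 / ((d : ℝ) - 1) := by exact_mod_cast hE1'
    have hc0 : 0 < Real.sqrt 5 / ((d : ℝ) - 1) := by positivity
    set c := Real.sqrt 5 / ((d : ℝ) - 1) with hcdef
    set E1' := max E1 (1 + c / 2) with hE1'def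
    have h1 : 1 < E1' := lt_of_lt_of_le (by linarith) (le_max_right _ _)
    have h2 : E1' < 1 + c := max_lt hlt (by linarith)
    have H1 : ∀ i p l, 0 < p → n0 ≤ p → HasPower u i p l → (l : ℝ) / (p : ℝ) ≤ E1' := by
      intro i p l hp hnp hpow
      refine le_trans ?_ (le_max_left _ _)
      have h3 : (((l : ℝ) / (p : ℝ) : ℝ) : EReal) ≤ critExpFrom u n0 := by
        unfold critExpFrom
        exact le_iSup_of_le i (le_iSup_of_le p (le_iSup_of_le l (le_iSup_of_le hp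
          (le_iSup_of_le hnp (le_iSup_of_le hpow le_rfl)))))
      exact_mod_cast (lt_of_le_of_lt h3 hE1).le
    have H2 : ∀ i p l, 0 < p → HasPower u i p l → (l : ℝ) / (p : ℝ) ≤ E2 := by
      intro i p l hp hpow
      have h3 : (((l : ℝ) / (p : ℝ) : ℝ) : EReal) ≤ critExp u := by
        unfold critExp
        exact le_iSup_of_le i (le_iSup_of_le p (le_iSup_of_le l (le_iSup_of_le hp
          (le_iSup_of_le hpow le_rfl))))
      exact_mod_cast (lt_of_le_of_lt h3 hE2).le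
    have h4 := main5 (orb_of E hx H2) h1 H1 H2
    have h5 : ((d - 1 : ℕ) : ℝ) = (d : ℝ) - 1 := by
      rw [Nat.cast_sub (by omega)]; simp
    rw [h5] at h4
    have h6 : (E1' - 1) * ((d : ℝ) - 1) < c * ((d : ℝ) - 1) :=
      mul_lt_mul_of_pos_right (by linarith) hd0
    have h7 : c * ((d : ℝ) - 1) = Real.sqrt 5 := by
      rw [hcdef]; field_simp
    linarith

end Pool.Agent.RTV
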