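import Pool.Agent.RTV.Defs

/-!
# RTV/AdjA: a window of `N` points has `N - 1` pairs of neighbours

PLAN: for `N ≥ 1` the map `p ↦ p.1` is a bijection from `Adj X a N` to `Ico a (a + N)` without the index of the largest point.
Injective: if `(i, j)`, `(i, j')` are both adjacent, `X j < X j'` would put `j` between `i` and `j'`, so `X j = X j'`, `j = j'`.  Image: if `i` is not the index
`m` of the maximum (`Finset.exists_max_image`), the nonempty set of `k` in the window with `X i < X k` has an index `j` with `X j` minimal, and `(i, j)` is adjacent; the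
maximum is no first component.
-/

set_option autoImplicit false

namespace Pool.Agent.RTV

theorem mem_adj {X : ℕ → ℝ} {a N : ℕ} {p : ℕ × ℕ} : p ∈ Adj X a N ↔
    (a ≤ p.1 ∧ p.1 < a + N) ∧ (a ≤ p.2 ∧ p.2 < a + N) ∧ X p.1 < X p.2 ∧ ∀ k, a ≤ k → k < a + N → ¬ Btw X p k := by
  classical
  unfold Adj
  rw [Finset.mem_filter, Finset.mem_product, Finset.mem_Ico, Finset.mem_Ico]
  constructor
  · rintro ⟨⟨h1, h2⟩, h3, h4⟩
    exact ⟨h1, h2, h3, fun k hk1 hk2 => h4 k (Finset.mem_Ico.2 ⟨hk1, hk2⟩)⟩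
  · rintro ⟨h1, h2, h3, h4⟩
    exact ⟨⟨h1, h2⟩, h3, fun k hk => h4 k (Finset.mem_Ico.1 hk).1 (Finset.mem_Ico.1 hk).2⟩

theorem card_adj {X : ℕ → ℝ} (hX : Function.Injective X) (a : ℕ) {N : ℕ} (hN : 1 ≤ N) :
    (Adj X a N).card + 1 = N := by
  classical
  have hne : (Finset.Ico a (a + N)).Nonempty := ⟨a, Finset.mem_Ico.2 ⟨le_rfl, by omega⟩⟩
  obtain ⟨m, hm, hmax⟩ := Finset.exists_max_image (Finset.Ico a (a + N)) X hne
  have hinj : Set.InjOn (Prod.fst : ℕ × ℕ → ℕ) (Adj X a N : Set (ℕ × ℕ)) := by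
    rintro ⟨i, j⟩ h1 ⟨i', j'⟩ h2 (h : i = i')
    subst h
    rw [Finset.mem_coe, mem_adj] at h1 h2
    obtain ⟨-, hj, hij, hb⟩ := h1
    obtain ⟨-, hj', hij', hb'⟩ := h2
    have h3 : X j = X j' := by
      rcases lt_trichotomy (X j) (X j') with h4 | h4 | h4
      · exact absurd ⟨hij, h4⟩ (hb' j hj.1 hj.2)
      · exact h4
      · exact absurd ⟨hij', h4⟩ (hb j' hj'.1 hj'.2)
    rw [hX h3]
  have himg : (Adj X a N).image Prod.fst = (Finset.Ico a (a + N)).erase m := by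
    ext i
    rw [Finset.mem_image, Finset.mem_erase, Finset.mem_Ico]
    constructor
    · rintro ⟨p, hp, rfl⟩
      rw [mem_adj] at hp
      obtain ⟨h1, h2, h3, -⟩ := hp
      refine ⟨fun h => ?_, h1⟩
      have h4 := hmax p.2 (Finset.mem_Ico.2 h2)
      rw [← h] at h4
      exact absurd h3 (not_lt.2 h4)
    · rintro ⟨him, hi⟩
      have h1 : X i < X m := lt_of_le_of_ne (hmax i (Finset.mem_Ico.2 hi)) (fun h => him (hX h))
      obtain ⟨j, hj, hmin⟩ := Finset.exists_min_image ((Finset.Ico a (a + N)).filter fun k => X i < X k) X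
        ⟨m, Finset.mem_filter.2 ⟨hm, h1⟩⟩
      rw [Finset.mem_filter, Finset.mem_Ico] at hj
      refine ⟨(i, j), mem_adj.2 ⟨hi, hj.1, hj.2, fun k hk1 hk2 hb => ?_⟩, rfl⟩
      have h2 := hmin k (Finset.mem_filter.2 ⟨Finset.mem_Ico.2 ⟨hk1, hk2⟩, hb.1⟩)
      exact absurd hb.2 (not_lt.2 h2)
  have h1 : (Adj X a N).card = ((Finset.Ico a (a + N)).erase m).card := by
    rw [← himg, Finset.card_image_of_injOn hinj]
  rw [h1, Finset.card_erase_of_mem hm, Nat.card_Ico]
  omega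

end Pool.Agent.RTV
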