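import Pool.Agent.RTV.BoxE

/-!
# RTV/BoxC: the numbers of windows

PLAN: everything from `adj_iff`; for a given `N` at most one `a` for each `α`.  `cnt_adj`: `∑ ind = card` of the set of `a < M` with `p ∈ Adj X a N`; the map `a ↦ lo p - a` is a bijection onto the set in `vv`
(`β = N - (df p + 1 + α)`).  `cnt_birth` (windows of length `N + 1`): `hi p = a + N` means `β = 0`, so `α = N - df p`.  `cnt_left`: `Btw X p (a - 1)` with `a - 1 = lo p - (α + 1)` and `α < r` forces `α + 1 = r`
(`r2`); conversely `r < K` (because `df p + r ≤ N < K`) and `r3`; then `β = N - (df p + r) < s`; the window start is `a = lo p - (r - 1) > 0`.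
`cnt_right` in the same way with `β + 1 = s`, `α = N - (df p + s)`.  In each case the sum of the indicators over `a < M` has at most one nonzero term.
-/

set_option autoImplicit false

namespace Pool.Agent.RTV

private theorem boxC_sum_one {M : ℕ} {Q : ℕ → Prop} {R : Prop} (a0 : ℕ) (h1 : ∀ a, Q a → a = a0)
    (h2 : Q a0 → R) (h3 : R → a0 < M ∧ Q a0) : ∑ a ∈ Finset.range M, ind (Q a) = ind R := by
  by_cases hR : R
  · obtain ⟨h4, h5⟩ := h3 hR
    rw [Finset.sum_eq_single a0]
    · unfold ind; rw [if_pos h5, if_pos hR]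
    · intro b _ hb
      unfold ind
      rw [if_neg (fun h => hb (h1 b h))]
    · intro h
      exact absurd (Finset.mem_range.2 h4) h
  · unfold ind
    rw [if_neg hR]
    apply Finset.sum_eq_zero
    intro a _
    rw [if_neg]
    intro h
    have := h1 a h
    subst this
    exact hR (h2 h)

private theorem boxC_adj {X : ℕ → ℝ} {K : ℕ} {p : ℕ × ℕ} {r s : ℕ} (h : Bx X K p r s) {a N : ℕ}
    (hN : N ≤ K) : p ∈ Adj X a N ↔ a ≤ lo p ∧ lo p - a < r ∧ df p + 1 + (lo p - a) ≤ N ∧
      N < df p + 1 + (lo p - a) + s := by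
  rw [adj_iff h hN]
  constructor
  · rintro ⟨α, β, h1, h2, h3, h4⟩
    refine ⟨by omega, by omega, by omega, by omega⟩
  · rintro ⟨h1, h2, h3, h4⟩
    exact ⟨lo p - a, N - (df p + 1 + (lo p - a)), h2, by omega, by omega, by omega⟩

theorem cnt_adj {X : ℕ → ℝ} {K : ℕ} {p : ℕ × ℕ} {r s : ℕ} (h : Bx X K p r s) {M N : ℕ} (hM : lo p < M) (hN : N ≤ K) :
    ∑ a ∈ Finset.range M, ind (p ∈ Adj X a N) = vv (df p) r s N := by
  classical
  have hK0 := h.K0
  have hrK := h.rK
  have hc : ∑ a ∈ Finset.range M, ind (p ∈ Adj X a N) =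
      (((Finset.range M).filter (fun a => p ∈ Adj X a N)).card : ℝ) := by
    rw [Finset.card_filter, Nat.cast_sum]
    apply Finset.sum_congr rfl
    intro a _
    unfold ind
    by_cases hq : p ∈ Adj X a N
    · rw [if_pos hq, if_pos hq, Nat.cast_one]
    · rw [if_neg hq, if_neg hq, Nat.cast_zero]
  rw [hc]
  unfold vv
  congr 1
  apply Finset.card_bij (fun a _ => lo p - a)
  · intro a ha
    rw [Finset.mem_filter, boxC_adj h hN] at ha
    rw [Finset.mem_filter, Finset.mem_range]
    exact ⟨ha.2.2.1, ha.2.2.2.1, ha.2.2.2.2⟩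
  · intro a ha b hb hab
    rw [Finset.mem_filter, boxC_adj h hN] at ha hb
    have := ha.2.1
    have := hb.2.1
    have hab' : lo p - a = lo p - b := hab
    omega
  · intro α hα
    rw [Finset.mem_filter, Finset.mem_range] at hα
    obtain ⟨h1, h2, h3⟩ := hα
    have h4 : lo p - (lo p - α) = α := by omega
    refine ⟨lo p - α, ?_, h4⟩
    rw [Finset.mem_filter, Finset.mem_range, boxC_adj h hN, h4]
    refine ⟨by omega, by omega, h1, h2, h3⟩

theorem cnt_birth {X : ℕ → ℝ} {K : ℕ} {p : ℕ × ℕ} {r s : ℕ} (h : Bx X K p r s) {M N : ℕ} (hM : lo p < M) (hN : N < K) :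
    ∑ a ∈ Finset.range M, ind (p ∈ Adj X a (N + 1) ∧ hi p = a + N) = ind (df p ≤ N ∧ N < df p + r) := by
  have hK0 := h.K0
  have hrK := h.rK
  have hs1 := h.s1
  obtain ⟨hd1, hd2⟩ := bx_df h
  apply boxC_sum_one (lo p + df p - N)
  · rintro a ⟨h1, h2⟩
    omega
  · rintro ⟨h1, h2⟩
    rw [boxC_adj h (by omega)] at h1
    omega
  · rintro ⟨h1, h2⟩
    refine ⟨by omega, ?_, by omega⟩
    rw [boxC_adj h (by omega)]
    omega

theorem cnt_left {X : ℕ → ℝ} {K : ℕ} {p : ℕ × ℕ} {r s : ℕ} (h : Bx X K p r s) {M N : ℕ} (hM : lo p < M) (hN : N < K) :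
    ∑ a ∈ Finset.range M, ind (p ∈ Adj X a N ∧ 0 < a ∧ Btw X p (a - 1)) =
      ind (df p + r ≤ N ∧ N < df p + r + s) := by
  have hK0 := h.K0
  have hrK := h.rK
  have hr1 := h.r1
  have hs1 := h.s1
  obtain ⟨hd1, hd2⟩ := bx_df h
  have key : ∀ a, (p ∈ Adj X a N ∧ 0 < a ∧ Btw X p (a - 1)) →
      a = lo p + 1 - r ∧ (df p + r ≤ N ∧ N < df p + r + s) := by
    rintro a ⟨h1, h2, h3⟩
    rw [boxC_adj h (by omega)] at h1
    obtain ⟨h4, h5, h6, h7⟩ := h1
    have h8 : lo p - a + 1 = r := by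
      by_contra hne
      apply h.r2 (lo p - a + 1) (by omega) (by omega)
      have : lo p - (lo p - a + 1) = a - 1 := by omega
      rw [this]
      exact h3
    omega
  apply boxC_sum_one (lo p + 1 - r)
  · intro a ha; exact (key a ha).1
  · intro ha; exact (key _ ha).2
  · rintro ⟨h1, h2⟩
    refine ⟨by omega, ?_, by omega, ?_⟩
    · rw [boxC_adj h (by omega)]
      omega
    · have h3 := h.r3 (by omega)
      have : lo p + 1 - r - 1 = lo p - r := by omega
      rw [this]
      exact h3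

theorem cnt_right {X : ℕ → ℝ} {K : ℕ} {p : ℕ × ℕ} {r s : ℕ} (h : Bx X K p r s) {M N : ℕ} (hM : lo p < M) (hN : N < K) :
    ∑ a ∈ Finset.range M, ind (p ∈ Adj X a N ∧ Btw X p (a + N)) =
      ind (df p + s ≤ N ∧ N < df p + r + s) := by
  have hK0 := h.K0
  have hrK := h.rK
  have hr1 := h.r1
  have hs1 := h.s1
  obtain ⟨hd1, hd2⟩ := bx_df h
  have key : ∀ a, (p ∈ Adj X a N ∧ Btw X p (a + N)) →
      a = lo p + df p + s - N ∧ (df p + s ≤ N ∧ N < df p + r + s) := by
    rintro a ⟨h1, h3⟩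
    rw [boxC_adj h (by omega)] at h1
    obtain ⟨h4, h5, h6, h7⟩ := h1
    have h8 : a + N - hi p = s := by
      by_contra hne
      apply h.s2 (a + N - hi p) (by omega) (by omega)
      have : hi p + (a + N - hi p) = a + N := by omega
      rw [this]
      exact h3
    omega
  apply boxC_sum_one (lo p + df p + s - N)
  · intro a ha; exact (key a ha).1
  · intro ha; exact (key _ ha).2
  · rintro ⟨h1, h2⟩
    refine ⟨by omega, ?_, ?_⟩
    · rw [boxC_adj h (by omega)]
      omega
    · have h3 := h.s3 (by omega)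
      have : lo p + df p + s - N + N = hi p + s := by omega
      rw [this]
      exact h3

end Pool.Agent.RTV
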