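import Pool.Agent.RTV.AdjA

/-!
# RTV/BoxE: the windows in which a pair is adjacent

PLAN: `bx_exists`: `r` is the least number `≥ 1` with `r = K ∨ Btw X p (lo p - r)` (`Nat.find`), the same for `s`.  `adj_iff`: `lo p ≠ hi p`, both points of the pair are in the window iff
`a ≤ lo p` and `hi p < a + N`.  If `p ∈ Adj X a N`, put `α = lo p - a`, `β = a + N - 1 - hi p`; if `α ≥ r`, then `r ≤ α < N ≤ K`, so `r < K` and the blocker `lo p - r` is in the window, a contradiction; the same for `β`.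
Conversely a point `k` of the window is `lo p - k'` with `k' ≤ α < r`, or strictly between `lo p` and `hi p`, or `hi p + k'` with `k' ≤ β < s`, or one of the two points.
-/

set_option autoImplicit false

namespace Pool.Agent.RTV

private theorem boxE_find {K : ℕ} (hK : 1 ≤ K) (Q : ℕ → Prop) :
    ∃ r, 1 ≤ r ∧ r ≤ K ∧ (∀ k, 1 ≤ k → k < r → ¬ Q k) ∧ (r < K → Q r) := by
  classical
  have hex : ∃ r, 1 ≤ r ∧ (r = K ∨ Q r) := ⟨K, hK, Or.inl rfl⟩
  refine ⟨Nat.find hex, (Nat.find_spec hex).1, Nat.find_min' hex ⟨hK, Or.inl rfl⟩, ?_, ?_⟩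
  · intro k hk hkr hQ
    exact Nat.find_min hex hkr ⟨hk, Or.inr hQ⟩
  · intro hr
    rcases (Nat.find_spec hex).2 with h | h
    · omega
    · exact h

private theorem boxE_pair {X : ℕ → ℝ} {p : ℕ × ℕ} (lt : X p.1 < X p.2) :
    lo p < hi p ∧ lo p ≤ p.1 ∧ lo p ≤ p.2 ∧ p.1 ≤ hi p ∧ p.2 ≤ hi p ∧ ¬ Btw X p (lo p) ∧ ¬ Btw X p (hi p) := by
  have hne : p.1 ≠ p.2 := by
    intro h
    rw [h] at lt
    exact lt_irrefl _ lt
  unfold lo hi Btw
  refine ⟨?_, min_le_left _ _, min_le_right _ _, le_max_left _ _, le_max_right _ _, ?_, ?_⟩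
  · omega
  · rcases min_choice p.1 p.2 with h | h
    · rw [h]
      exact fun h' => lt_irrefl _ h'.1
    · rw [h]
      exact fun h' => lt_irrefl _ h'.2
  · rcases max_choice p.1 p.2 with h | h
    · rw [h]
      exact fun h' => lt_irrefl _ h'.1
    · rw [h]
      exact fun h' => lt_irrefl _ h'.2

theorem bx_exists {X : ℕ → ℝ} {K : ℕ} (hK : 1 ≤ K) {p : ℕ × ℕ} (lt : X p.1 < X p.2)
    (mid : ∀ k, lo p < k → k < hi p → ¬ Btw X p k) (K0 : K ≤ lo p) : ∃ r s, Bx X K p r s := by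
  obtain ⟨r, hr1, hrK, hr2, hr3⟩ := boxE_find hK (fun k => Btw X p (lo p - k))
  obtain ⟨s, hs1, hsK, hs2, hs3⟩ := boxE_find hK (fun k => Btw X p (hi p + k))
  exact ⟨r, s, ⟨lt, mid, K0, hr1, hrK, hr2, hr3, hs1, hsK, hs2, hs3⟩⟩

theorem bx_df {X : ℕ → ℝ} {K : ℕ} {p : ℕ × ℕ} {r s : ℕ} (h : Bx X K p r s) : 1 ≤ df p ∧ hi p = lo p + df p := by
  have h1 := (boxE_pair h.lt).1
  unfold df
  omega

theorem adj_mid {X : ℕ → ℝ} {a N : ℕ} {p : ℕ × ℕ} (h : p ∈ Adj X a N) : X p.1 < X p.2 ∧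
    (∀ k, lo p < k → k < hi p → ¬ Btw X p k) ∧ a ≤ lo p ∧ hi p < a + N ∧ lo p < hi p := by
  classical
  unfold Adj at h
  rw [Finset.mem_filter, Finset.mem_product, Finset.mem_Ico, Finset.mem_Ico] at h
  obtain ⟨⟨⟨h1, h2⟩, h3, h4⟩, lt, hk⟩ := h
  obtain ⟨e1, e2, e3, e4, e5, -, -⟩ := boxE_pair lt
  have e6 : a ≤ lo p := le_min h1 h3
  have e7 : hi p < a + N := max_lt h2 h4
  refine ⟨lt, ?_, e6, e7, e1⟩
  intro k k1 k2
  exact hk k (Finset.mem_Ico.2 ⟨by omega, by omega⟩)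

theorem adj_iff {X : ℕ → ℝ} {K : ℕ} {p : ℕ × ℕ} {r s : ℕ} (h : Bx X K p r s) {a N : ℕ} (hN : N ≤ K) :
    p ∈ Adj X a N ↔ ∃ α β, α < r ∧ β < s ∧ lo p = a + α ∧ N = df p + 1 + α + β := by
  classical
  obtain ⟨d1, d2⟩ := bx_df h
  obtain ⟨e1, e2, e3, e4, e5, e6, e7⟩ := boxE_pair h.lt
  constructor
  · intro hp
    obtain ⟨-, -, a1, a2, -⟩ := adj_mid hp
    unfold Adj at hp
    rw [Finset.mem_filter] at hp
    have hk := hp.2.2
    refine ⟨lo p - a, a + N - 1 - hi p, ?_, ?_, by omega, by omega⟩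
    · by_contra hc
      have h1 := h.r1
      have h3 := h.r3 (by omega)
      exact hk _ (Finset.mem_Ico.2 ⟨by omega, by omega⟩) h3
    · by_contra hc
      have h1 := h.s1
      have h3 := h.s3 (by omega)
      exact hk _ (Finset.mem_Ico.2 ⟨by omega, by omega⟩) h3
  · rintro ⟨α, β, hα, hβ, hl, hN'⟩
    unfold Adj
    rw [Finset.mem_filter, Finset.mem_product, Finset.mem_Ico, Finset.mem_Ico]
    refine ⟨⟨⟨by omega, by omega⟩, by omega, by omega⟩, h.lt, ?_⟩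
    intro k hk
    rw [Finset.mem_Ico] at hk
    rcases lt_trichotomy k (lo p) with k1 | k1 | k1
    · have h2 := h.r2 (lo p - k) (by omega) (by omega)
      have h3 : lo p - (lo p - k) = k := by omega
      rwa [h3] at h2
    · rw [k1]
      exact e6
    · rcases lt_trichotomy k (hi p) with k2 | k2 | k2
      · exact h.mid k k1 k2
      · rw [k2]
        exact e7
      · have h2 := h.s2 (k - hi p) (by omega) (by omega)
        have h3 : hi p + (k - hi p) = k := by omega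
        rwa [h3] at h2

end Pool.Agent.RTV
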