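import Pool.Agent.RTV.BoxC
import Pool.Agent.RTV.AdjB

/-!
# RTV/Cnt: at most `3 M` boxes contain a given length
-/

set_option autoImplicit false

namespace Pool.Agent.RTV

open Classical in
/-- A sum of indicators over `P` is at most the cardinality of a set which contains all pairs with the property. -/
private theorem cnt_sum_ind_le (P S : Finset (ℕ × ℕ)) (q : ℕ × ℕ → Prop) (h : ∀ p ∈ P, q p → p ∈ S) :
    ∑ p ∈ P, ind (q p) ≤ (S.card : ℝ) := by
  have h1 : ∑ p ∈ P, ind (q p) = ((P.filter q).card : ℝ) := by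
    unfold ind
    rw [Finset.sum_ite]
    simp
  rw [h1]
  have h2 : P.filter q ⊆ S := by
    intro p hp
    rw [Finset.mem_filter] at hp
    exact h p hp.1 hp.2
  exact_mod_cast Finset.card_le_card h2

private theorem cnt_ind_split (n N r s : ℕ) :
    ind (n ≤ N ∧ N < n + r + s) = ind (n ≤ N ∧ N < n + r) + ind (n + r ≤ N ∧ N < n + r + s) := by
  unfold ind
  by_cases h1 : n ≤ N ∧ N < n + r
  · have h2 : ¬ (n + r ≤ N ∧ N < n + r + s) := by omega
    have h3 : n ≤ N ∧ N < n + r + s := by omega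
    rw [if_pos h1, if_neg h2, if_pos h3]
    norm_num
  · by_cases h2 : n + r ≤ N ∧ N < n + r + s
    · have h3 : n ≤ N ∧ N < n + r + s := by omega
      rw [if_neg h1, if_pos h2, if_pos h3]
      norm_num
    · have h3 : ¬ (n ≤ N ∧ N < n + r + s) := by omega
      rw [if_neg h1, if_neg h2, if_neg h3]
      norm_num

open Classical in
theorem cnt_le {X : ℕ → ℝ} (hX : Function.Injective X) {K M N : ℕ} (P : Finset (ℕ × ℕ)) (r s : ℕ × ℕ → ℕ)
    (hP : ∀ p ∈ P, Bx X K p (r p) (s p) ∧ lo p < M) (hN1 : 1 ≤ N) (hN : N < K) :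
    ∑ p ∈ P, ind (df p ≤ N ∧ N < df p + r p + s p) ≤ 3 * M := by
  have e1 : ∑ p ∈ P, ind (df p ≤ N ∧ N < df p + r p + s p) =
      ∑ p ∈ P, ∑ a ∈ Finset.range M, (ind (p ∈ Adj X a (N + 1) ∧ hi p = a + N) +
        ind (p ∈ Adj X a N ∧ 0 < a ∧ Btw X p (a - 1))) := by
    refine Finset.sum_congr rfl fun p hp => ?_
    obtain ⟨hB, hlo⟩ := hP p hp
    rw [Finset.sum_add_distrib, cnt_birth hB hlo hN, cnt_left hB hlo hN]
    exact cnt_ind_split _ _ _ _
  rw [e1, Finset.sum_comm]
  have e2 : ∀ a ∈ Finset.range M, ∑ p ∈ P, (ind (p ∈ Adj X a (N + 1) ∧ hi p = a + N) +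
        ind (p ∈ Adj X a N ∧ 0 < a ∧ Btw X p (a - 1))) ≤ (3 : ℝ) := by
    intro a _
    rw [Finset.sum_add_distrib]
    have f1 := cnt_sum_ind_le P ((Adj X a (N + 1)).filter fun p => hi p = a + N)
      (fun p => p ∈ Adj X a (N + 1) ∧ hi p = a + N) (by
        intro p _ hq
        exact Finset.mem_filter.mpr hq)
    have f2 := cnt_sum_ind_le P ((Adj X a N).filter fun p => Btw X p (a - 1))
      (fun p => p ∈ Adj X a N ∧ 0 < a ∧ Btw X p (a - 1)) (by
        intro p _ hq
        exact Finset.mem_filter.mpr ⟨hq.1, hq.2.2⟩)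
    have g1 : (((Adj X a (N + 1)).filter fun p => hi p = a + N).card : ℝ) ≤ 2 := by
      have h1 := birth_eq hX a hN1
      have h2 := split_le hX a N (a + N)
      have h3 : ((Adj X a (N + 1)).filter fun p => hi p = a + N).card ≤ 2 := by omega
      exact_mod_cast h3
    have g2 : (((Adj X a N).filter fun p => Btw X p (a - 1)).card : ℝ) ≤ 1 := by
      have h2 := split_le hX a N (a - 1)
      exact_mod_cast h2
    linarith
  have e3 := Finset.sum_le_sum e2
  refine e3.trans ?_
  rw [Finset.sum_const, Finset.card_range, nsmul_eq_mul]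
  linarith

end Pool.Agent.RTV
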