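import Mathlib
import Pool.Agent.Helper44.IETDefs

/-!
# RTV: the lower bound `RT* ≥ 1 + √5 / (d - 1)` (definitions)

`X : ℕ → ℝ` is the orbit of a point under an interval exchange, `u` the labels.  A window is the set of the `N` consecutive
orbit points `X a, …, X (a + N - 1)`; `Adj X a N` is the set of the pairs `(i, j)` such that `X i < X j` are neighbours in the
window.
-/

set_option autoImplicit false

namespace Pool.Agent.RTV

/-- The point `k` lies between the points of the pair. -/
def Btw (X : ℕ → ℝ) (p : ℕ × ℕ) (k : ℕ) : Prop := X p.1 < X k ∧ X k < X p.2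

open Classical in
/-- Neighbours in the window `[a, a + N)`. -/
noncomputable def Adj (X : ℕ → ℝ) (a N : ℕ) : Finset (ℕ × ℕ) :=
  (Finset.Ico a (a + N) ×ˢ Finset.Ico a (a + N)).filter fun p =>
    X p.1 < X p.2 ∧ ∀ k ∈ Finset.Ico a (a + N), ¬ Btw X p k

/-- The older point. -/
def lo (p : ℕ × ℕ) : ℕ := min p.1 p.2

/-- The newer point. -/
def hi (p : ℕ × ℕ) : ℕ := max p.1 p.2

/-- The time difference. -/
def df (p : ℕ × ℕ) : ℕ := hi p - lo p

/-- The orbit data: distinct points; the labels `≤ D` are monotone; the map is an injective map which is a translation on every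
label. -/
structure Orb (X : ℕ → ℝ) (u : ℕ → ℕ) (D : ℕ) : Prop where
  inj : Function.Injective X
  mono : ∀ i j, X i ≤ X j → u i ≤ u j
  le : ∀ i, u i ≤ D
  next : ∀ i j, u i = u j → X i < X j → X (i + 1) < X (j + 1)
  btw : ∀ i j k, u i = u j → X i < X j → X (i + 1) < X (k + 1) → X (k + 1) < X (j + 1) → X i < X k ∧ X k < X j

/-- The pair `p` is never separated by a point of an intermediate time; the first separating points before and after it are
at distances `r`, `s`, as far as these are smaller than `K` (otherwise `K`). -/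
structure Bx (X : ℕ → ℝ) (K : ℕ) (p : ℕ × ℕ) (r s : ℕ) : Prop where
  lt : X p.1 < X p.2
  mid : ∀ k, lo p < k → k < hi p → ¬ Btw X p k
  K0 : K ≤ lo p
  r1 : 1 ≤ r
  rK : r ≤ K
  r2 : ∀ k, 1 ≤ k → k < r → ¬ Btw X p (lo p - k)
  r3 : r < K → Btw X p (lo p - r)
  s1 : 1 ≤ s
  sK : s ≤ K
  s2 : ∀ k, 1 ≤ k → k < s → ¬ Btw X p (hi p + k)
  s3 : s < K → Btw X p (hi p + s)

open Classical in
/-- The pairs without intermediate points, with older point in `[K, M)` and time difference less than `K`. -/
noncomputable def PP (X : ℕ → ℝ) (K M : ℕ) : Finset (ℕ × ℕ) :=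
  (Finset.range (M + K) ×ˢ Finset.range (M + K)).filter fun p =>
    X p.1 < X p.2 ∧ (∀ k, lo p < k → k < hi p → ¬ Btw X p k) ∧ K ≤ lo p ∧ lo p < M ∧ df p < K

open Classical in
/-- Indicator. -/
noncomputable def ind (P : Prop) : ℝ := if P then 1 else 0

/-- The weight of the window length `N`. -/
noncomputable def cc (N : ℕ) : ℝ := Real.log (((N : ℝ) + 1) / N)

open Classical in
/-- Number of the windows of length `N` in which a pair with data `n`, `r`, `s` is adjacent. -/
noncomputable def vv (n r s N : ℕ) : ℝ :=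
  (((Finset.range r).filter fun α => n + 1 + α ≤ N ∧ N < n + 1 + α + s).card : ℝ)

/-- `log φ` -/
noncomputable def lam : ℝ := Real.log ((1 + Real.sqrt 5) / 2)

/-- The multiplier `y = 4.5419…`. -/
noncomputable def cy : ℝ := 2 * (3 * (2 + Real.sqrt 5) * lam - Real.sqrt 5) / (3 * Real.sqrt 5 - 5)

/-- The multiplier `x = 3.7733…`. -/
noncomputable def cx : ℝ := (Real.sqrt 5 + 2 * cy) / 3

/-- The local functional. -/
noncomputable def phi (κ : ℝ) (n r s N : ℕ) : ℝ :=
  κ * vv n r s N - cx * ind (n ≤ N ∧ N < n + r + s) + cy * ind (n + r ≤ N ∧ N < n + r + s) +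
    cy * ind (n + s ≤ N ∧ N < n + r + s)

end Pool.Agent.RTV
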