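import Pool.Agent.RTV.AdjA

/-!
# RTV/Die: at most `D` pairs of neighbours have different labels
-/

set_option autoImplicit false

namespace Pool.Agent.RTV

private theorem die_lt {X : ℕ → ℝ} {u : ℕ → ℕ} {D : ℕ} (h : Orb X u D) {p : ℕ × ℕ} (hp : X p.1 < X p.2)
    (hu : u p.1 ≠ u p.2) : u p.1 < u p.2 :=
  lt_of_le_of_ne (h.mono _ _ hp.le) hu

private theorem die_aux {X : ℕ → ℝ} {u : ℕ → ℕ} {D : ℕ} (h : Orb X u D) {a N : ℕ} {p q : ℕ × ℕ}
    (hp : p ∈ Adj X a N) (hq : q ∈ Adj X a N) (hpu : u p.1 ≠ u p.2) (huu : u p.1 = u q.1)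
    (hX : X p.1 ≤ X q.1) : p = q := by
  obtain ⟨p1, p2, p3, p4⟩ := mem_adj.1 hp
  obtain ⟨q1, q2, q3, q4⟩ := mem_adj.1 hq
  rcases hX.eq_or_lt with e | e
  · have e1 : p.1 = q.1 := h.inj e
    have e2 : X p.2 = X q.2 := by
      apply le_antisymm
      · by_contra hc
        refine p4 q.2 q2.1 q2.2 ⟨?_, not_le.1 hc⟩
        rw [e]
        exact q3
      · by_contra hc
        refine q4 p.2 p2.1 p2.2 ⟨?_, not_le.1 hc⟩
        rw [← e]
        exact p3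
    exact Prod.ext e1 (h.inj e2)
  · exfalso
    have h1 : X p.2 ≤ X q.1 := by
      by_contra hc
      exact p4 q.1 q1.1 q1.2 ⟨e, not_le.1 hc⟩
    have h2 := h.mono _ _ h1
    have h3 := die_lt h p3 hpu
    omega

open Classical in
theorem die_le {X : ℕ → ℝ} {u : ℕ → ℕ} {D : ℕ} (h : Orb X u D) (a N : ℕ) :
    ((Adj X a N).filter fun p => u p.1 ≠ u p.2).card ≤ D := by
  have h1 : ((Adj X a N).filter fun p => u p.1 ≠ u p.2).card ≤ (Finset.range D).card := by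
    apply Finset.card_le_card_of_injOn (fun p => u p.1)
    · intro p hp
      obtain ⟨hp1, hp2⟩ := Finset.mem_filter.1 hp
      have h3 := die_lt h (mem_adj.1 hp1).2.2.1 hp2
      have h4 := h.le p.2
      show u p.1 ∈ (Finset.range D : Set ℕ)
      rw [Finset.mem_coe, Finset.mem_range]
      omega
    · intro p hp q hq e
      obtain ⟨hp1, hp2⟩ := Finset.mem_filter.1 hp
      obtain ⟨hq1, hq2⟩ := Finset.mem_filter.1 hq
      have e' : u p.1 = u q.1 := e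
      rcases le_total (X p.1) (X q.1) with h3 | h3
      · exact die_aux h hp1 hq1 hp2 e' h3
      · exact (die_aux h hq1 hp1 hq2 e'.symm h3).symm
  rwa [Finset.card_range] at h1

theorem adj_next {X : ℕ → ℝ} {u : ℕ → ℕ} {D : ℕ} (h : Orb X u D) {a N : ℕ} {p : ℕ × ℕ} (hp : p ∈ Adj X a N)
    (hu : u p.1 = u p.2) : (p.1 + 1, p.2 + 1) ∈ Adj X (a + 1) N := by
  obtain ⟨p1, p2, p3, p4⟩ := mem_adj.1 hp
  rw [mem_adj]
  refine ⟨⟨?_, ?_⟩, ⟨?_, ?_⟩, h.next _ _ hu p3, ?_⟩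
  · show a + 1 ≤ p.1 + 1
    omega
  · show p.1 + 1 < a + 1 + N
    omega
  · show a + 1 ≤ p.2 + 1
    omega
  · show p.2 + 1 < a + 1 + N
    omega
  · intro k h1 h2 h3
    obtain ⟨k', rfl⟩ : ∃ k', k = k' + 1 := ⟨k - 1, by omega⟩
    exact p4 k' (by omega) (by omega) (h.btw _ _ _ hu p3 h3.1 h3.2)

theorem adj_iter {X : ℕ → ℝ} {u : ℕ → ℕ} {D : ℕ} (h : Orb X u D) {a N : ℕ} {p : ℕ × ℕ} (hp : p ∈ Adj X a N)
    (t : ℕ) (hu : ∀ m < t, u (p.1 + m) = u (p.2 + m)) : (p.1 + t, p.2 + t) ∈ Adj X (a + t) N := by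
  induction t with
  | zero => exact hp
  | succ t ih =>
    exact adj_next h (ih (fun m hm => hu m (by omega))) (hu t (by omega))

end Pool.Agent.RTV
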