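import Pool.Agent.RTV.Num

/-!
# RTV/IneqA: the inequality on the diagonal

Let `q = 2 cy - cx`, `f w = (2 w - 1 + q) log (2 w - 1) - 2 (w + cy) log w`.  PLAN: `f 1 = 0`; with `w0 = (3 + √5) / 2`, `2 w0 - 1 = 2 + √5`, `f w0 = lam (√5 + 2 cy - 3 cx) = 0` (`log_phi2`, `log_phi3`, `id1`).
`f' w = 2 ψ w`, `ψ w = log ((2 w - 1) / w) + q / (2 w - 1) - cy / w`; `ψ w0 = 0` by `id2` (`1 / (2 + √5) = √5 - 2`, `1 / w0 = (3 - √5) / 2`);
`ψ' w = ((2 + 2 cx) w ^ 2 - (1 + 4 cy) w + cy) / (w ^ 2 (2 w - 1) ^ 2)`: the numerator is negative on `[1, 1.72]` and positive on `[1.75, ∞)`, and it has exactly one root `w1` in `[1, ∞)` (a convex quadratic, negative at `1`), so `ψ` is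
decreasing on `[1, w1]` and increasing on `[w1, ∞)`, `w1 < 2 < w0`.  Hence: for `w ≥ w0`, `ψ ≥ 0` on `[w0, w]` and `f w ≥ f w0 = 0`.  For `w ∈ [1, w0]`: if `ψ w ≥ 0`, then `w ≤ w1` or `w = w0` (on `[w1, w0]` one has `ψ ≤ ψ w0 = 0`), and `ψ ≥ ψ w ≥ 0` on
`[1, w]`, so `f w ≥ f 1 = 0`; if `ψ w ≤ 0`, then `ψ ≤ max (ψ w) (ψ w0) ≤ 0` on `[w, w0]`, so `f w ≥ f w0 = 0`.  Use `monotoneOn_of_deriv_nonneg`, `antitoneOn_of_deriv_nonpos` (or the mean value theorem).
-/

set_option autoImplicit false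

namespace Pool.Agent.RTV

private theorem ineqA_mono (g g' : ℝ → ℝ) {a b : ℝ} (hab : a ≤ b)
    (h1 : ∀ t ∈ Set.Icc a b, HasDerivAt g (g' t) t) (h2 : ∀ t ∈ Set.Icc a b, 0 ≤ g' t) :
    g a ≤ g b := by
  have h3 : MonotoneOn g (Set.Icc a b) := by
    refine monotoneOn_of_deriv_nonneg (convex_Icc a b)
      (fun t ht => (h1 t ht).continuousAt.continuousWithinAt) ?_ ?_
    · intro t ht
      exact (h1 t (interior_subset ht)).differentiableAt.differentiableWithinAt
    · intro t ht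
      rw [(h1 t (interior_subset ht)).deriv]
      exact h2 t (interior_subset ht)
  exact h3 (Set.left_mem_Icc.2 hab) (Set.right_mem_Icc.2 hab) hab

private theorem ineqA_anti (g g' : ℝ → ℝ) {a b : ℝ} (hab : a ≤ b)
    (h1 : ∀ t ∈ Set.Icc a b, HasDerivAt g (g' t) t) (h2 : ∀ t ∈ Set.Icc a b, g' t ≤ 0) :
    g b ≤ g a := by
  have h3 := ineqA_mono (fun t => -g t) (fun t => -g' t) hab (fun t ht => (h1 t ht).neg)
    (fun t ht => by
      have := h2 t ht
      linarith)
  linarith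

/-- the function -/
private noncomputable def ineqA_f (w : ℝ) : ℝ :=
  (2 * w - 1 + (2 * cy - cx)) * Real.log (2 * w - 1) - 2 * ((w + cy) * Real.log w)

/-- half of its derivative -/
private noncomputable def ineqA_psi (w : ℝ) : ℝ :=
  Real.log (2 * w - 1) - Real.log w + (2 * cy - cx) * (2 * w - 1)⁻¹ - cy * w⁻¹

/-- numerator of the derivative of `psi` -/
private noncomputable def ineqA_num (w : ℝ) : ℝ := (2 + 2 * cx) * w ^ 2 - (1 + 4 * cy) * w + cy

private theorem ineqA_f_deriv {w : ℝ} (hw : 1 ≤ w) : HasDerivAt ineqA_f (2 * ineqA_psi w) w := by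
  have h0 : w ≠ 0 := by linarith
  have h1 : 2 * w - 1 ≠ 0 := by
    have : 0 < 2 * w - 1 := by linarith
    exact this.ne'
  have e1 : HasDerivAt (fun x : ℝ => 2 * x - 1) 2 w := by
    simpa using ((hasDerivAt_id w).const_mul 2).sub_const 1
  have e2 : HasDerivAt (fun x : ℝ => Real.log (2 * x - 1)) (2 / (2 * w - 1)) w := e1.log h1
  have e3 : HasDerivAt (fun x : ℝ => 2 * x - 1 + (2 * cy - cx)) 2 w := e1.add_const _
  have e4 : HasDerivAt (fun x : ℝ => Real.log x) (1 / w) w := by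
    simpa using (Real.hasDerivAt_log h0)
  have e5 : HasDerivAt (fun x : ℝ => x + cy) 1 w := (hasDerivAt_id w).add_const _
  have e6 := (e3.mul e2).sub ((e5.mul e4).const_mul 2)
  refine HasDerivAt.congr_deriv (f := ineqA_f) e6 ?_
  unfold ineqA_psi
  field_simp
  ring

private theorem ineqA_psi_deriv {w : ℝ} (hw : 1 ≤ w) :
    HasDerivAt ineqA_psi (ineqA_num w / (w ^ 2 * (2 * w - 1) ^ 2)) w := by
  have h0 : w ≠ 0 := by linarith
  have h1 : 2 * w - 1 ≠ 0 := by
    have : 0 < 2 * w - 1 := by linarith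
    exact this.ne'
  have e1 : HasDerivAt (fun x : ℝ => 2 * x - 1) 2 w := by
    simpa using ((hasDerivAt_id w).const_mul 2).sub_const 1
  have e2 : HasDerivAt (fun x : ℝ => Real.log (2 * x - 1)) (2 / (2 * w - 1)) w := e1.log h1
  have e4 : HasDerivAt (fun x : ℝ => Real.log x) (1 / w) w := by
    simpa using (Real.hasDerivAt_log h0)
  have e5 : HasDerivAt (fun x : ℝ => (2 * x - 1)⁻¹) (-2 / (2 * w - 1) ^ 2) w := e1.inv h1
  have e6 : HasDerivAt (fun x : ℝ => x⁻¹) (-(1 / w ^ 2)) w := by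
    simpa using hasDerivAt_inv h0
  have e7 := ((e2.sub e4).add (e5.const_mul (2 * cy - cx))).sub (e6.const_mul cy)
  refine HasDerivAt.congr_deriv (f := ineqA_psi) e7 ?_
  unfold ineqA_num
  field_simp
  ring

private theorem ineqA_sqrt : Real.sqrt 5 ^ 2 = 5 := Real.sq_sqrt (by norm_num)

private theorem ineqA_sqrt_bd : 2.2 < Real.sqrt 5 ∧ Real.sqrt 5 < 2.3 := by
  constructor
  · exact Real.lt_sqrt_of_sq_lt (by norm_num)
  · exact (Real.sqrt_lt' (by norm_num)).2 (by norm_num)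

private theorem ineqA_f_one : ineqA_f 1 = 0 := by
  unfold ineqA_f
  norm_num

private theorem ineqA_f_w0 : ineqA_f ((3 + Real.sqrt 5) / 2) = 0 := by
  unfold ineqA_f
  have h1 : 2 * ((3 + Real.sqrt 5) / 2) - 1 = 2 + Real.sqrt 5 := by ring
  rw [h1, log_phi2, log_phi3]
  have h2 := id1
  have h3 : (2 + Real.sqrt 5 + (2 * cy - cx)) * (3 * lam) -
      2 * (((3 + Real.sqrt 5) / 2 + cy) * (2 * lam)) = lam * (Real.sqrt 5 - (3 * cx - 2 * cy)) := by
    ring
  rw [h3, h2, sub_self, mul_zero]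

private theorem ineqA_psi_w0 : ineqA_psi ((3 + Real.sqrt 5) / 2) = 0 := by
  unfold ineqA_psi
  have h1 : 2 * ((3 + Real.sqrt 5) / 2) - 1 = 2 + Real.sqrt 5 := by ring
  have hs := ineqA_sqrt
  have hb := ineqA_sqrt_bd
  have h4 : (2 + Real.sqrt 5)⁻¹ = Real.sqrt 5 - 2 := by
    have h6 : (2 + Real.sqrt 5) ≠ 0 := by
      have : 0 < 2 + Real.sqrt 5 := by linarith
      exact this.ne'
    field_simp
    nlinarith
  have h5 : ((3 + Real.sqrt 5) / 2)⁻¹ = (3 - Real.sqrt 5) / 2 := by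
    have h6 : (3 + Real.sqrt 5) ≠ 0 := by
      have : 0 < 3 + Real.sqrt 5 := by linarith
      exact this.ne'
    rw [inv_div]
    field_simp
    nlinarith
  rw [h1, log_phi2, log_phi3, h4, h5]
  have h2 := id2
  have h7 : cx * (Real.sqrt 5 - 2) = cy * (5 * Real.sqrt 5 - 11) / 2 + lam := by
    rw [h2]
    have e1 : (cy * ((3 - Real.sqrt 5) / 2) + (2 + Real.sqrt 5) * lam) * (Real.sqrt 5 - 2) =
        cy * (5 * Real.sqrt 5 - 6 - Real.sqrt 5 ^ 2) / 2 + (Real.sqrt 5 ^ 2 - 4) * lam := by ring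
    rw [e1, hs]
    ring
  have h8 : 3 * lam - 2 * lam + (2 * cy - cx) * (Real.sqrt 5 - 2) - cy * ((3 - Real.sqrt 5) / 2) =
      lam + 2 * cy * (Real.sqrt 5 - 2) - cx * (Real.sqrt 5 - 2) - cy * ((3 - Real.sqrt 5) / 2) := by
    ring
  rw [h8, h7]
  ring

theorem ineq_diag {w : ℝ} (hw : 1 ≤ w) :
    2 * ((w + cy) * Real.log w) ≤ (2 * w - 1 + (2 * cy - cx)) * Real.log (2 * w - 1) := by
  have hcy := cy_bd
  have hcx := cx_bd
  have hb := ineqA_sqrt_bd
  set w0 : ℝ := (3 + Real.sqrt 5) / 2 with hw0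
  have hw02 : 2 < w0 := by rw [hw0]; linarith
  -- the root
  obtain ⟨w1, hw1, hr⟩ : ∃ w1 ∈ Set.Icc (1 : ℝ) 2, ineqA_num w1 = 0 := by
    have hc : ContinuousOn ineqA_num (Set.Icc (1 : ℝ) 2) := by
      unfold ineqA_num
      fun_prop
    have h1 := intermediate_value_Icc (show (1 : ℝ) ≤ 2 by norm_num) hc
    have h2 : (0 : ℝ) ∈ Set.Icc (ineqA_num 1) (ineqA_num 2) := by
      unfold ineqA_num
      constructor
      · linarith
      · linarith
    obtain ⟨w1, hw1, h3⟩ := h1 h2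
    exact ⟨w1, hw1, h3⟩
  have hn1 : ineqA_num 1 < 0 := by
    unfold ineqA_num
    linarith
  have hdiff : ∀ t, ineqA_num t = (t - w1) * ((2 + 2 * cx) * (t + w1) - (1 + 4 * cy)) := by
    intro t
    have h1 : ineqA_num t - ineqA_num w1 =
        (t - w1) * ((2 + 2 * cx) * (t + w1) - (1 + 4 * cy)) := by
      unfold ineqA_num
      ring
    rw [hr, sub_zero] at h1
    exact h1
  have hslope : ∀ t, 1 ≤ t → 0 < (2 + 2 * cx) * (t + w1) - (1 + 4 * cy) := by
    intro t ht
    have h1 : 0 < (2 + 2 * cx) * (1 + w1) - (1 + 4 * cy) := by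
      have h2 := hdiff 1
      by_contra h3
      have h4 : 0 ≤ (1 - w1) * ((2 + 2 * cx) * (1 + w1) - (1 + 4 * cy)) :=
        mul_nonneg_of_nonpos_of_nonpos (by linarith [hw1.1]) (not_lt.1 h3)
      linarith
    nlinarith
  have hden : ∀ t : ℝ, 1 ≤ t → 0 < t ^ 2 * (2 * t - 1) ^ 2 := by
    intro t ht
    have h1 : 0 < 2 * t - 1 := by linarith
    positivity
  have anti : ∀ a b, 1 ≤ a → a ≤ b → b ≤ w1 → ineqA_psi b ≤ ineqA_psi a := by
    intro a b ha hab hb1
    refine ineqA_anti _ _ hab (fun t ht => ineqA_psi_deriv (ha.trans ht.1)) fun t ht => ?_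
    have ht1 := ha.trans ht.1
    refine div_nonpos_of_nonpos_of_nonneg ?_ (hden t ht1).le
    rw [hdiff]
    exact mul_nonpos_of_nonpos_of_nonneg (by linarith [ht.2]) (hslope t ht1).le
  have mono : ∀ a b, w1 ≤ a → a ≤ b → ineqA_psi a ≤ ineqA_psi b := by
    intro a b ha hab
    have ha1 : 1 ≤ a := hw1.1.trans ha
    refine ineqA_mono _ _ hab (fun t ht => ineqA_psi_deriv (ha1.trans ht.1)) fun t ht => ?_
    have ht1 := ha1.trans ht.1
    refine div_nonneg ?_ (hden t ht1).le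
    rw [hdiff]
    exact mul_nonneg (by linarith [ht.1]) (hslope t ht1).le
  have hp0 : ineqA_psi w0 = 0 := ineqA_psi_w0
  have hf0 : ineqA_f w0 = 0 := ineqA_f_w0
  have key : 0 ≤ ineqA_f w := by
    rcases le_total w0 w with h | h
    · have h1 := ineqA_mono ineqA_f (fun t => 2 * ineqA_psi t) h
        (fun t ht => ineqA_f_deriv (by linarith [ht.1])) fun t ht => by
          have := mono w0 t (by linarith [hw1.2]) ht.1
          linarith
      linarith
    · have hanti : (∀ t ∈ Set.Icc w w0, ineqA_psi t ≤ 0) → 0 ≤ ineqA_f w := by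
        intro hneg
        have h1 := ineqA_anti ineqA_f (fun t => 2 * ineqA_psi t) h
          (fun t ht => ineqA_f_deriv (by linarith [ht.1])) fun t ht => by
            have := hneg t ht
            linarith
        linarith
      rcases le_total w1 w with h2 | h2
      · refine hanti fun t ht => ?_
        have := mono t w0 (h2.trans ht.1) ht.2
        linarith
      · rcases le_total 0 (ineqA_psi w) with h3 | h3
        · have h4 := ineqA_mono ineqA_f (fun t => 2 * ineqA_psi t) hw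
            (fun t ht => ineqA_f_deriv ht.1) fun t ht => by
              have := anti t w ht.1 ht.2 h2
              linarith
          rw [ineqA_f_one] at h4
          exact h4
        · refine hanti fun t ht => ?_
          rcases le_total t w1 with h5 | h5
          · have := anti w t hw ht.1 h5
            linarith
          · have := mono t w0 h5 ht.2
            linarith
  unfold ineqA_f at key
  linarith

end Pool.Agent.RTV
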