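import Pool.Agent.RTV.Die

/-!
# RTV/Life: the mean weight of the adjacent pairs is at most `η D`

PLAN: fix `M`, `N`; let `L = (range N).sup ℓ`.  For `(a, p)` with `a < M`, `p ∈ Adj X a N`, let `n = df p` (`1 ≤ n < N`) and let `t` be the least number with `u (p.1 + t) ≠ u (p.2 + t)`; it
exists and `t ≤ ℓ n` by `hrun` (with `i = lo p`, `i + n = hi p`): if there were no such `t`, `hrun` for `t = ℓ n + 1` fails.  By `adj_iter` the pair `p + t` is in `Adj X (a + t) N` and dies there.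
The map `(a, p) ↦ ((a + t, p + t), t)` is injective with values in {(a', p') : a' < M + L, p' dying in Adj X a' N} × range (ℓ (df p') + 1); `df (p + t) = df p`.  Hence the
sum is at most `∑ a' < M + L, ∑ p' dying, κ (df p') * (ℓ (df p') + 1) ≤ ∑ a' < M + L, D * η` (`die_le`).
-/

set_option autoImplicit false

namespace Pool.Agent.RTV

private theorem life_df (p : ℕ × ℕ) (t : ℕ) : df (p.1 + t, p.2 + t) = df p := by
  unfold df hi lo
  simp only
  omega

private theorem life_t {u : ℕ → ℕ} (ℓ : ℕ → ℕ)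
    (hrun : ∀ i n t, 1 ≤ n → (∀ m < t, u (i + m) = u (i + n + m)) → t ≤ ℓ n) (p : ℕ × ℕ) (hp : p.1 ≠ p.2) :
    ∃ t, t ≤ ℓ (df p) ∧ u (p.1 + t) ≠ u (p.2 + t) ∧ ∀ m < t, u (p.1 + m) = u (p.2 + m) := by
  have hn : 1 ≤ df p := by
    unfold df hi lo
    omega
  have hlh : lo p + df p = hi p := by
    unfold df hi lo
    omega
  have hsw : ∀ m, u (p.1 + m) = u (p.2 + m) → u (lo p + m) = u (lo p + df p + m) := by
    intro m hm
    rw [hlh]
    rcases le_total p.1 p.2 with h1 | h1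
    · have e1 : lo p = p.1 := by unfold lo; omega
      have e2 : hi p = p.2 := by unfold hi; omega
      rw [e1, e2]
      exact hm
    · have e1 : lo p = p.2 := by unfold lo; omega
      have e2 : hi p = p.1 := by unfold hi; omega
      rw [e1, e2]
      exact hm.symm
  have hex : ∃ t, u (p.1 + t) ≠ u (p.2 + t) := by
    by_contra hc
    push Not at hc
    have := hrun (lo p) (df p) (ℓ (df p) + 1) hn (fun m _ => hsw m (hc m))
    omega
  classical
  refine ⟨Nat.find hex, ?_, Nat.find_spec hex, ?_⟩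
  · refine hrun (lo p) (df p) _ hn fun m hm => hsw m ?_
    exact not_not.1 (Nat.find_min hex hm)
  · intro m hm
    exact not_not.1 (Nat.find_min hex hm)

theorem life {X : ℕ → ℝ} {u : ℕ → ℕ} {D : ℕ} (h : Orb X u D) (κ : ℕ → ℝ) (hκ : ∀ n, 0 ≤ κ n) (ℓ : ℕ → ℕ) {η : ℝ}
    (hη : ∀ n, 1 ≤ n → κ n * (ℓ n + 1) ≤ η) (hrun : ∀ i n t, 1 ≤ n → (∀ m < t, u (i + m) = u (i + n + m)) → t ≤ ℓ n)
    (M N : ℕ) : ∑ a ∈ Finset.range M, ∑ p ∈ Adj X a N, κ (df p) ≤ η * D * (M + (Finset.range N).sup ℓ) := by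
  classical
  have hη0 : 0 ≤ η := le_trans (mul_nonneg (hκ 1) (by positivity)) (hη 1 le_rfl)
  choose! t ht1 ht2 ht3 using life_t ℓ hrun
  have hne : ∀ a, ∀ p ∈ Adj X a N, p.1 ≠ p.2 := by
    intro a p hp he
    have := (mem_adj.1 hp).2.2.1
    rw [he] at this
    exact lt_irrefl _ this
  set L := (Finset.range N).sup ℓ with hL
  set S : Finset ((_ : ℕ) × (ℕ × ℕ)) := (Finset.range M).sigma (fun a => Adj X a N) with hS
  set T : Finset ((_ : ℕ) × ((_ : ℕ × ℕ) × ℕ)) := (Finset.range (M + L)).sigma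
    (fun a => ((Adj X a N).filter fun p => u p.1 ≠ u p.2).sigma (fun p => Finset.range (ℓ (df p) + 1))) with hT
  have hinj : Set.InjOn (fun x : (_ : ℕ) × (ℕ × ℕ) =>
      (⟨x.1 + t x.2, ⟨(x.2.1 + t x.2, x.2.2 + t x.2), t x.2⟩⟩ : (_ : ℕ) × ((_ : ℕ × ℕ) × ℕ))) S := by
    rintro ⟨a, p⟩ - ⟨a', p'⟩ - hxy
    simp only [Sigma.mk.injEq, heq_eq_eq, Prod.mk.injEq] at hxy
    obtain ⟨h1, ⟨h2, h3⟩, h4⟩ := hxy
    have e1 : a = a' := by omega
    have e2 : p = p' := Prod.ext (by omega) (by omega)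
    rw [e1, e2]
  have hsub : S.image (fun x : (_ : ℕ) × (ℕ × ℕ) =>
      (⟨x.1 + t x.2, ⟨(x.2.1 + t x.2, x.2.2 + t x.2), t x.2⟩⟩ : (_ : ℕ) × ((_ : ℕ × ℕ) × ℕ))) ⊆ T := by
    intro y hy
    obtain ⟨⟨a, p⟩, hx, rfl⟩ := Finset.mem_image.1 hy
    obtain ⟨ha, hp⟩ := Finset.mem_sigma.1 hx
    simp only at hp
    have ha' : a < M := Finset.mem_range.1 ha
    have hpn := hne a p hp
    have h1 := ht1 p hpn
    have hdf : df p < N := by
      obtain ⟨⟨q1, q2⟩, ⟨q3, q4⟩, -⟩ := mem_adj.1 hp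
      unfold df hi lo
      omega
    have h2 : ℓ (df p) ≤ L := Finset.le_sup (f := ℓ) (Finset.mem_range.2 hdf)
    refine Finset.mem_sigma.2 ⟨Finset.mem_range.2 ?_, Finset.mem_sigma.2 ⟨Finset.mem_filter.2 ⟨?_, ?_⟩,
      Finset.mem_range.2 ?_⟩⟩
    · show a + t p < M + L
      omega
    · exact adj_iter h hp (t p) (ht3 p hpn)
    · exact ht2 p hpn
    · show t p < ℓ (df (p.1 + t p, p.2 + t p)) + 1
      rw [life_df]
      omega
  have e1 : ∑ a ∈ Finset.range M, ∑ p ∈ Adj X a N, κ (df p) = ∑ x ∈ S, κ (df x.2) := by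
    rw [hS, Finset.sum_sigma]
  have e2 : ∑ x ∈ S, κ (df x.2) = ∑ y ∈ S.image (fun x : (_ : ℕ) × (ℕ × ℕ) =>
      (⟨x.1 + t x.2, ⟨(x.2.1 + t x.2, x.2.2 + t x.2), t x.2⟩⟩ : (_ : ℕ) × ((_ : ℕ × ℕ) × ℕ))),
      κ (df y.2.1) := by
    rw [Finset.sum_image hinj]
    refine Finset.sum_congr rfl fun x _ => ?_
    simp only
    rw [life_df]
  have e3 : ∑ y ∈ S.image (fun x : (_ : ℕ) × (ℕ × ℕ) =>
      (⟨x.1 + t x.2, ⟨(x.2.1 + t x.2, x.2.2 + t x.2), t x.2⟩⟩ : (_ : ℕ) × ((_ : ℕ × ℕ) × ℕ))),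
      κ (df y.2.1) ≤ ∑ y ∈ T, κ (df y.2.1) :=
    Finset.sum_le_sum_of_subset_of_nonneg hsub fun y _ _ => hκ _
  have e4 : ∑ y ∈ T, κ (df y.2.1) ≤ ∑ _a ∈ Finset.range (M + L), η * D := by
    rw [hT, Finset.sum_sigma]
    refine Finset.sum_le_sum fun a _ => ?_
    rw [Finset.sum_sigma]
    simp only
    calc ∑ p ∈ (Adj X a N).filter (fun p => u p.1 ≠ u p.2), ∑ _s ∈ Finset.range (ℓ (df p) + 1), κ (df p)
        ≤ ∑ _p ∈ (Adj X a N).filter (fun p => u p.1 ≠ u p.2), η := by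
          refine Finset.sum_le_sum fun p hp => ?_
          have hp' := (Finset.mem_filter.1 hp).1
          have hn : 1 ≤ df p := by
            have := hne a p hp'
            unfold df hi lo
            omega
          have := hη (df p) hn
          rw [Finset.sum_const, Finset.card_range, nsmul_eq_mul]
          push_cast
          linarith
      _ = (((Adj X a N).filter fun p => u p.1 ≠ u p.2).card : ℝ) * η := by
          rw [Finset.sum_const, nsmul_eq_mul]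
      _ ≤ (D : ℝ) * η := by
          refine mul_le_mul_of_nonneg_right ?_ hη0
          exact_mod_cast die_le h a N
      _ = η * D := mul_comm _ _
  rw [e1, e2]
  refine (e3.trans e4).trans (le_of_eq ?_)
  rw [Finset.sum_const, Finset.card_range, nsmul_eq_mul]
  push_cast
  ring

end Pool.Agent.RTV
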