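import Pool.Agent.RTV.Defs

/-!
# RTV/SumL: sums of the weights `cc N = log ((N + 1) / N)`

Telescoping sums.
-/

set_option autoImplicit false

namespace Pool.Agent.RTV

theorem sum_cc {a b : ℕ} (ha : 1 ≤ a) (hab : a ≤ b) : ∑ N ∈ Finset.Ico a b, cc N = Real.log b - Real.log a := by
  induction b, hab using Nat.le_induction with
  | base => simp
  | succ b hab ih =>
    rw [Finset.sum_Ico_succ_top hab, ih]
    have hb : (b : ℝ) ≠ 0 := by
      have : b ≠ 0 := by omega
      exact_mod_cast this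
    have hb1 : (b : ℝ) + 1 ≠ 0 := by
      have : b + 1 ≠ 0 := by omega
      exact_mod_cast this
    unfold cc
    rw [Real.log_div hb1 hb]
    push_cast
    ring

theorem cc_nonneg {N : ℕ} (hN : 1 ≤ N) : 0 ≤ cc N := by
  unfold cc
  apply Real.log_nonneg
  have hN0 : (0 : ℝ) < N := by exact_mod_cast hN
  rw [le_div_iff₀ hN0]
  linarith

private theorem sumL_gen {n m h H : ℕ} (hm : 1 ≤ m) (h1 : n ≤ m) (h2 : m ≤ h) (h3 : h ≤ H) :
    ∑ N ∈ Finset.Ico n H, cc N * ind (m ≤ N ∧ N < h) = Real.log h - Real.log m := by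
  rw [← sum_cc hm h2]
  symm
  have hsub : Finset.Ico m h ⊆ Finset.Ico n H := Finset.Ico_subset_Ico h1 h3
  calc ∑ N ∈ Finset.Ico m h, cc N = ∑ N ∈ Finset.Ico m h, cc N * ind (m ≤ N ∧ N < h) := by
        refine Finset.sum_congr rfl fun N hN => ?_
        rw [Finset.mem_Ico] at hN
        unfold ind
        rw [if_pos hN, mul_one]
    _ = ∑ N ∈ Finset.Ico n H, cc N * ind (m ≤ N ∧ N < h) := by
        refine Finset.sum_subset hsub fun N _ hN => ?_
        rw [Finset.mem_Ico] at hN
        unfold ind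
        rw [if_neg hN, mul_zero]

private theorem sumL_vv (n r s N : ℕ) :
    vv n r s N = ∑ α ∈ Finset.range r, ind (n + 1 + α ≤ N ∧ N < n + 1 + α + s) := by
  unfold vv ind
  rw [Finset.card_filter]
  push_cast
  refine Finset.sum_congr rfl fun α _ => ?_
  by_cases hh : n + 1 + α ≤ N ∧ N < n + 1 + α + s
  · rw [if_pos hh, if_pos hh]
  · rw [if_neg hh, if_neg hh]

private theorem sumL_fac (a : ℕ) :
    Real.log ((a + 1).factorial : ℕ) = Real.log ((a + 1 : ℕ) : ℝ) + Real.log (a.factorial : ℕ) := by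
  rw [Nat.factorial_succ, Nat.cast_mul, Real.log_mul]
  · exact_mod_cast Nat.succ_ne_zero a
  · exact_mod_cast Nat.factorial_ne_zero a

private theorem sumL_tel (n s : ℕ) (r : ℕ) :
    ∑ α ∈ Finset.range r, (Real.log ((n + 1 + α + s : ℕ) : ℝ) - Real.log ((n + 1 + α : ℕ) : ℝ)) =
      Real.log (n + r + s).factorial + Real.log n.factorial - Real.log (n + r).factorial -
      Real.log (n + s).factorial := by
  induction r with
  | zero => simp
  | succ r ih =>
    rw [Finset.sum_range_succ, ih]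
    have e1 : n + (r + 1) + s = (n + r + s) + 1 := by ring
    have e2 : n + (r + 1) = (n + r) + 1 := by ring
    have e3 : n + 1 + r + s = n + r + s + 1 := by ring
    have e4 : n + 1 + r = n + r + 1 := by ring
    rw [e1, e2, e3, e4, sumL_fac, sumL_fac]
    ring

theorem sum_ind {n m h : ℕ} (hn : 1 ≤ n) (h1 : n ≤ m) (h2 : m ≤ h) :
    ∑ N ∈ Finset.Ico n h, cc N * ind (m ≤ N ∧ N < h) = Real.log h - Real.log m :=
  sumL_gen (le_trans hn h1) h1 h2 le_rfl

theorem sum_vv {n r s : ℕ} (hn : 1 ≤ n) : ∑ N ∈ Finset.Ico n (n + r + s), cc N * vv n r s N =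
    Real.log (n + r + s).factorial + Real.log n.factorial - Real.log (n + r).factorial -
      Real.log (n + s).factorial := by
  rw [← sumL_tel n s r]
  calc ∑ N ∈ Finset.Ico n (n + r + s), cc N * vv n r s N
      = ∑ N ∈ Finset.Ico n (n + r + s), ∑ α ∈ Finset.range r,
          cc N * ind (n + 1 + α ≤ N ∧ N < n + 1 + α + s) := by
        refine Finset.sum_congr rfl fun N _ => ?_
        rw [sumL_vv, Finset.mul_sum]
    _ = ∑ α ∈ Finset.range r, ∑ N ∈ Finset.Ico n (n + r + s),
          cc N * ind (n + 1 + α ≤ N ∧ N < n + 1 + α + s) := Finset.sum_comm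
    _ = _ := by
        refine Finset.sum_congr rfl fun α hα => ?_
        rw [Finset.mem_range] at hα
        exact sumL_gen (by omega) (by omega) (by omega) (by omega)

end Pool.Agent.RTV
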